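import Mathlib

/-!
Process terms of BPA with the empty process and the binary Kleene star, bisimilarity, and finite
equational bases.
-/

namespace Pool.Agent.Helper501.Eps

/-- Process terms over a set L of atoms: the empty process eps, atoms, alternative composition,
sequential composition and the binary Kleene star. The closed terms are the terms over the set A of
actions; the open terms are the terms over A ⊕ ℕ, the actions and the variables. -/
inductive Term (L : Type*)
  | eps
  | atom (a : L)
  | plus (s t : Term L)
  | seq (s t : Term L)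
  | kstar (s t : Term L)

namespace Term

/-- Simultaneous substitution of terms for atoms. -/
def inst {L M : Type*} (σ : L → Term M) : Term L → Term M
  | eps => eps
  | atom a => σ a
  | plus s t => plus (inst σ s) (inst σ t)
  | seq s t => seq (inst σ s) (inst σ t)
  | kstar s t => kstar (inst σ s) (inst σ t)

end Term

open Term

/-- The termination predicate on closed terms. -/
def Down {A : Type*} : Term A → Prop
  | eps => True
  | atom _ => False
  | plus p q => Down p ∨ Down q
  | seq p q => Down p ∧ Down q
  | kstar _ q => Down q

/-- The transitions of closed terms. -/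
inductive Tr {A : Type*} : Term A → A → Term A → Prop
  | atom (a : A) : Tr (atom a) a eps
  | plus_left {p q p' : Term A} {a : A} : Tr p a p' → Tr (plus p q) a p'
  | plus_right {p q q' : Term A} {a : A} : Tr q a q' → Tr (plus p q) a q'
  | seq_left {p q p' : Term A} {a : A} : Tr p a p' → Tr (seq p q) a (seq p' q)
  | seq_right {p q q' : Term A} {a : A} : Down p → Tr q a q' → Tr (seq p q) a q'
  | kstar_left {p q p' : Term A} {a : A} : Tr p a p' → Tr (kstar p q) a (seq p' (kstar p q))
  | kstar_right {p q q' : Term A} {a : A} : Tr q a q' → Tr (kstar p q) a q'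

/-- Symmetric bisimulations on closed terms. -/
structure IsBisim {A : Type*} (R : Term A → Term A → Prop) : Prop where
  symm : ∀ p q, R p q → R q p
  step : ∀ p q a p', R p q → Tr p a p' → ∃ q', Tr q a q' ∧ R p' q'
  down : ∀ p q, R p q → Down p → Down q

/-- Bisimilarity of closed terms. -/
def Bisim {A : Type*} (p q : Term A) : Prop := ∃ R : Term A → Term A → Prop, IsBisim R ∧ R p q

/-- Closed instances: every action is kept and variable number k is replaced by ρ k. -/
def close {A : Type*} (ρ : ℕ → Term A) : A ⊕ ℕ → Term A := Sum.elim atom ρ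

/-- An equation between open terms is valid if all its closed instances are bisimilar. -/
def Valid {A : Type*} (t u : Term (A ⊕ ℕ)) : Prop :=
  ∀ ρ : ℕ → Term A, Bisim (inst (close ρ) t) (inst (close ρ) u)

/-- Substitutions of open terms for variables: actions are kept. -/
def osub {A : Type*} (τ : ℕ → Term (A ⊕ ℕ)) : A ⊕ ℕ → Term (A ⊕ ℕ) :=
  Sum.elim (fun a => atom (Sum.inl a)) τ

/-- Derivability in equational logic from a set of equations between open terms. -/
inductive Der {A : Type*} (E : Set (Term (A ⊕ ℕ) × Term (A ⊕ ℕ))) : Term (A ⊕ ℕ) → Term (A ⊕ ℕ) → Prop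
  | ax {t u : Term (A ⊕ ℕ)} (h : (t, u) ∈ E) (τ : ℕ → Term (A ⊕ ℕ)) : Der E (inst (osub τ) t) (inst (osub τ) u)
  | refl (t : Term (A ⊕ ℕ)) : Der E t t
  | symm {t u : Term (A ⊕ ℕ)} : Der E t u → Der E u t
  | trans {t u v : Term (A ⊕ ℕ)} : Der E t u → Der E u v → Der E t v
  | plus {s s' t t' : Term (A ⊕ ℕ)} : Der E s s' → Der E t t' → Der E (plus s t) (plus s' t')
  | seq {s s' t t' : Term (A ⊕ ℕ)} : Der E s s' → Der E t t' → Der E (seq s t) (seq s' t')
  | kstar {s s' t t' : Term (A ⊕ ℕ)} : Der E s s' → Der E t t' → Der E (kstar s t) (kstar s' t')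

/-- Closed terms as open terms without variables. -/
def emb {A : Type*} : Term A → Term (A ⊕ ℕ) := inst (fun a => atom (Sum.inl a))

/-- A set of equations is a basis if every closed instance of each of its equations is valid modulo
bisimilarity, and every valid equation between closed terms is derivable from it. -/
def IsBasis {A : Type*} (E : Set (Term (A ⊕ ℕ) × Term (A ⊕ ℕ))) : Prop :=
  (∀ e ∈ E, Valid e.1 e.2) ∧ ∀ p q : Term A, Bisim p q → Der E (emb p) (emb q)

/-- Bisimilarity over the terms with actions in A is finitely based. -/
def FinitelyBased (A : Type*) : Prop := ∃ E : Set (Term (A ⊕ ℕ) × Term (A ⊕ ℕ)), E.Finite ∧ IsBasis E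

end Pool.Agent.Helper501.Eps
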