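import Pool.Agent.Helper501.Eps.Transfer

namespace Pool.Agent.Helper501.Eps

open Relation Term Ph

section Tw

variable {L : Type*}

/-- termination is reachable in at most `n` steps -/
def TW : ℕ → List (Term L) → Prop
  | 0, D => dnL (dF L) D
  | n + 1, D => dnL (dF L) D ∨ ∃ a D', Cf (dF L) D a D' ∧ TW n D'

theorem TW.succ {n : ℕ} {D : List (Term L)} (h : TW n D) : TW (n + 1) D := by
  induction n generalizing D with
  | zero => exact Or.inl h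
  | succ n ih =>
    rcases h with h | ⟨a, D', h1, h2⟩
    · exact Or.inl h
    · exact Or.inr ⟨a, D', h1, ih h2⟩

theorem TW.le {n m : ℕ} (hnm : n ≤ m) {D : List (Term L)} (h : TW n D) : TW m D := by
  induction hnm with
  | refl => exact h
  | step _ ih => exact ih.succ

theorem TW.mono {n : ℕ} {D1 D2 : List (Term L)} (h1 : ∀ a w, Cf (dF L) D1 a w → Cf (dF L) D2 a w)
    (h2 : dnL (dF L) D1 → dnL (dF L) D2) (h : TW n D1) : TW n D2 := by
  cases n with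
  | zero => exact h2 h
  | succ n =>
    rcases h with h | ⟨a, D', h3, h4⟩
    · exact Or.inl (h2 h)
    · exact Or.inr ⟨a, D', h1 _ _ h3, h4⟩

theorem LB.tw {n : ℕ} {D D' : List (Term L)} (hB : LB (dF L) D D') (h : TW n D) : TW n D' := by
  induction n generalizing D D' with
  | zero => exact hB.dn_iff.1 h
  | succ n ih =>
    rcases h with h | ⟨a, D1, h1, h2⟩
    · exact Or.inl (hB.dn_iff.1 h)
    · obtain ⟨D1', h3, h4⟩ := hB.fwd h1
      exact Or.inr ⟨a, D1', h3, ih h4 h2⟩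

theorem exists_dnL (D : List (Term L)) : ∃ x, LR (dF L) D x ∧ dnL (dF L) x := by
  induction D with
  | nil => exact ⟨[], ReflTransGen.refl, dnL_nil⟩
  | cons t R ih =>
    obtain ⟨x, h1, h2⟩ := exists_dn (da := dF L) t
    obtain ⟨y, h3, h4⟩ := ih
    have h5 : LR (dF L) ([t] ++ R) (x ++ R) := h1.append R
    rcases ReflTransGen.cases_head h3 with rfl | ⟨E1, ⟨a, h6⟩, h7⟩
    · exact ⟨x ++ R, h5, dnL_append.2 ⟨h2, h4⟩⟩
    · exact ⟨y, h5.trans (ReflTransGen.head ⟨a, cf_append.2 (Or.inr ⟨h2, h6⟩)⟩ h7), h4⟩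

theorem exists_TW (D : List (Term L)) : ∃ n, TW n D := by
  obtain ⟨x, h1, h2⟩ := exists_dnL D
  induction h1 using ReflTransGen.head_induction_on with
  | refl => exact ⟨0, h2⟩
  | head h _ ih =>
    obtain ⟨n, ih⟩ := ih
    obtain ⟨a, h⟩ := h
    exact ⟨n + 1, Or.inr ⟨a, _, h, ih⟩⟩

/-- a chain of `m` actions -/
def pw (a : L) : ℕ → Term L
  | 0 => eps
  | m + 1 => seq (atom a) (pw a m)

theorem st_pw_succ {a b : L} {m : ℕ} {w : List (Term L)} : St (dF L) (pw a (m + 1)) b w ↔ b = a ∧ w = [pw a m] := by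
  simp only [pw, St, dn, dF, false_and, or_false]
  constructor
  · rintro ⟨v, ⟨rfl, rfl⟩, rfl⟩; exact ⟨rfl, rfl⟩
  · rintro ⟨rfl, rfl⟩; exact ⟨[], ⟨rfl, rfl⟩, rfl⟩

theorem dn_pw_succ {a : L} {m : ℕ} : ¬ dn (dF L) (pw a (m + 1)) := fun h => h.1

theorem cf_pw_succ {a b : L} {m : ℕ} {X w : List (Term L)} :
    Cf (dF L) (pw a (m + 1) :: X) b w ↔ b = a ∧ w = pw a m :: X := by
  simp only [Cf, st_pw_succ]
  constructor
  · rintro (⟨v, ⟨rfl, rfl⟩, rfl⟩ | ⟨h, _⟩)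
    · exact ⟨rfl, rfl⟩
    · exact absurd h dn_pw_succ
  · rintro ⟨rfl, rfl⟩
    exact Or.inl ⟨_, ⟨rfl, rfl⟩, rfl⟩

theorem cf_eps {b : L} {X w : List (Term L)} : Cf (dF L) (eps :: X) b w ↔ Cf (dF L) X b w := by
  simp [Cf, St, dn]

theorem lb_eps (X : List (Term L)) : LB (dF L) (eps :: X) X := by
  refine LB.of_step ?_ ?_ ?_
  · rw [dnL_cons]; simp [dn]
  · intro a D1 hc; exact ⟨D1, cf_eps.1 hc, LB.refl _⟩
  · intro a D1 hc; exact ⟨D1, cf_eps.2 hc, LB.refl _⟩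

theorem tw_pw_le {a : L} {m n : ℕ} {X : List (Term L)} (h : TW n (pw a m :: X)) : m ≤ n := by
  induction m generalizing n with
  | zero => omega
  | succ m ih =>
    cases n with
    | zero => exact absurd (dnL_cons.1 h).1 dn_pw_succ
    | succ n =>
      rcases h with h | ⟨b, D', h1, h2⟩
      · exact absurd (dnL_cons.1 h).1 dn_pw_succ
      · obtain ⟨_, rfl⟩ := cf_pw_succ.1 h1
        have := ih h2
        omega

theorem tw_pw {a : L} {m n : ℕ} {X : List (Term L)} (h : TW n X) : TW (n + m) (pw a m :: X) := by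
  induction m with
  | zero => exact h.mono (fun b w hc => cf_eps.2 hc) (fun h => dnL_cons.2 ⟨trivial, h⟩)
  | succ m ih => exact Or.inr ⟨a, pw a m :: X, cf_pw_succ.2 ⟨rfl, rfl⟩, ih⟩

theorem lb_pw {a : L} {m : ℕ} {X Y : List (Term L)} (h : LB (dF L) (pw a m :: X) (pw a m :: Y)) : LB (dF L) X Y := by
  induction m with
  | zero => exact ((lb_eps X).symm.trans h).trans (lb_eps Y)
  | succ m ih =>
    obtain ⟨D, h1, h2⟩ := h.fwd (a := a) (cf_pw_succ.2 ⟨rfl, rfl⟩)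
    obtain ⟨_, rfl⟩ := cf_pw_succ.1 h1
    exact ih h2

theorem lb_pw_le {a : L} {m1 m2 N : ℕ} {X Y : List (Term L)} (hX : TW N X)
    (h : LB (dF L) (pw a m1 :: X) (pw a m2 :: Y)) : m2 ≤ N + m1 :=
  tw_pw_le (h.tw (tw_pw hX))

end Tw

section Encode

variable {A : Type*}

/-- the marker of variable number `k` -/
def mk (a0 : A) (m : ℕ) : Term A := plus (pw a0 (m + 1)) eps

/-- the encoding of variables as closed terms -/
def enc (a0 : A) (Q : ℕ) : A ⊕ ℕ → Term A := close (fun k => seq (atom a0) (mk a0 ((k + 1) * Q)))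

theorem cf_mk {a0 b : A} {m : ℕ} {X w : List (Term A)} : Cf (dF A) (mk a0 m :: X) b w ↔
    (b = a0 ∧ w = pw a0 m :: X) ∨ Cf (dF A) X b w := by
  simp only [Cf, mk, St, st_pw_succ, or_false, dn, or_true, true_and]
  constructor
  · rintro (⟨w, ⟨rfl, rfl⟩, rfl⟩ | h)
    · exact Or.inl ⟨rfl, rfl⟩
    · exact Or.inr h
  · rintro (⟨rfl, rfl⟩ | h)
    · exact Or.inl ⟨_, ⟨rfl, rfl⟩, rfl⟩
    · exact Or.inr h

theorem dS_enc {a0 : A} {Q : ℕ} : dS (enc a0 Q) = dF (A ⊕ ℕ) := by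
  funext z
  rcases z with a | k
  · rfl
  · simp [dS, enc, close, dn, dF]

theorem cf_enc {a0 : A} {Q : ℕ} {D : List (Term (A ⊕ ℕ))} {b : A} {Y : List (Term A)} :
    Cf (dF A) (D.map (inst (enc a0 Q))) b Y ↔
      (∃ D1, Cf (dF _) D (Sum.inl b) D1 ∧ Y = D1.map (inst (enc a0 Q))) ∨
      (b = a0 ∧ ∃ k D1, Cf (dF _) D (Sum.inr k) D1 ∧ Y = mk a0 ((k + 1) * Q) :: D1.map (inst (enc a0 Q))) := by
  rw [cf_inst]
  have e : (fun z => dn (dF A) (enc a0 Q z)) = dF (A ⊕ ℕ) := dS_enc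
  rw [e]
  constructor
  · rintro ⟨z, D1, v, h1, h2, rfl⟩
    rcases z with c | k
    · obtain ⟨rfl, rfl⟩ : b = c ∧ v = [] := h2
      exact Or.inl ⟨D1, h1, rfl⟩
    · rcases (show (∃ v', (b = a0 ∧ v' = []) ∧ v = v' ++ [mk a0 ((k + 1) * Q)]) ∨ (dF A a0 ∧ _) from h2) with
        ⟨v', ⟨rfl, rfl⟩, rfl⟩ | ⟨h, _⟩
      · exact Or.inr ⟨rfl, k, D1, h1, rfl⟩
      · exact absurd h id
  · rintro (⟨D1, h1, rfl⟩ | ⟨rfl, k, D1, h1, rfl⟩)
    · exact ⟨Sum.inl b, D1, [], h1, ⟨rfl, rfl⟩, rfl⟩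
    · exact ⟨Sum.inr k, D1, [mk b ((k + 1) * Q)], h1, Or.inl ⟨[], ⟨rfl, rfl⟩, rfl⟩, rfl⟩

theorem dnL_enc {a0 : A} {Q : ℕ} {D : List (Term (A ⊕ ℕ))} :
    dnL (dF A) (D.map (inst (enc a0 Q))) ↔ dnL (dF _) D := by
  rw [dnL_inst]
  have e : (fun z => dn (dF A) (enc a0 Q z)) = dF (A ⊕ ℕ) := dS_enc
  rw [e]

theorem tw_enc {a0 : A} {Q n : ℕ} {D : List (Term (A ⊕ ℕ))} (h : TW n D) : TW n (D.map (inst (enc a0 Q))) := by
  induction n generalizing D with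
  | zero => exact dnL_enc.2 h
  | succ n ih =>
    rcases h with h | ⟨z, D', h1, h2⟩
    · exact Or.inl (dnL_enc.2 h)
    · have h3 := ih h2
      rcases z with b | k
      · exact Or.inr ⟨b, _, cf_enc.2 (Or.inl ⟨D', h1, rfl⟩), h3⟩
      · exact Or.inr ⟨a0, _, cf_enc.2 (Or.inr ⟨rfl, k, D', h1, rfl⟩),
          h3.mono (fun a w hc => cf_mk.2 (Or.inr hc)) (fun h => dnL_cons.2 ⟨Or.inr trivial, h⟩)⟩

theorem encode {a0 : A} {S : Set (List (Term (A ⊕ ℕ)))} {N : ℕ} (hN : ∀ D ∈ S, TW N D)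
    (hS : ∀ D ∈ S, ∀ z D', Cf (dF _) D z D' → D' ∈ S) {D D' : List (Term (A ⊕ ℕ))} (hD : D ∈ S) (hD' : D' ∈ S)
    (hB : LB (dF A) (D.map (inst (enc a0 (N + 2)))) (D'.map (inst (enc a0 (N + 2))))) : LB (dF _) D D' := by
  have hTN : ∀ D ∈ S, ∀ a Y, Cf (dF A) (D.map (inst (enc a0 (N + 2)))) a Y → TW N Y := by
    intro D hD a Y hc
    rcases cf_enc.1 hc with ⟨D1, h1, rfl⟩ | ⟨rfl, k, D1, h1, rfl⟩
    · exact tw_enc (hN D1 (hS D hD _ _ h1))
    · exact (tw_enc (hN D1 (hS D hD _ _ h1))).mono (fun a w hc => cf_mk.2 (Or.inr hc))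
        (fun h => dnL_cons.2 ⟨Or.inr trivial, h⟩)
  have hC : ∀ D ∈ S, ∀ k X, ¬ LB (dF A) (D.map (inst (enc a0 (N + 2)))) (mk a0 ((k + 1) * (N + 2)) :: X) := by
    intro D hD k X hB
    obtain ⟨Y, h1, h2⟩ := hB.bwd (a := a0) (cf_mk.2 (Or.inl ⟨rfl, rfl⟩))
    have h3 := tw_pw_le (h2.tw (hTN D hD _ _ h1))
    have : N + 2 ≤ (k + 1) * (N + 2) := Nat.le_mul_of_pos_left _ (by omega)
    omega
  have half : ∀ D ∈ S, ∀ D' ∈ S, LB (dF A) (D.map (inst (enc a0 (N + 2)))) (D'.map (inst (enc a0 (N + 2)))) →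
      ∀ z D1, Cf (dF _) D z D1 → ∃ D1', Cf (dF _) D' z D1' ∧ D1 ∈ S ∧ D1' ∈ S ∧
        LB (dF A) (D1.map (inst (enc a0 (N + 2)))) (D1'.map (inst (enc a0 (N + 2)))) := by
    rintro D hD D' hD' hB (b | k) D1 hc
    · obtain ⟨Y, h1, h2⟩ := hB.fwd (cf_enc.2 (Or.inl ⟨D1, hc, rfl⟩))
      rcases cf_enc.1 h1 with ⟨D1', h3, rfl⟩ | ⟨rfl, k', D1', h3, rfl⟩
      · exact ⟨D1', h3, hS D hD _ _ hc, hS D' hD' _ _ h3, h2⟩
      · exact absurd h2 (hC D1 (hS D hD _ _ hc) k' _)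
    · obtain ⟨Y, h1, h2⟩ := hB.fwd (cf_enc.2 (Or.inr ⟨rfl, k, D1, hc, rfl⟩))
      rcases cf_enc.1 h1 with ⟨D1', h3, rfl⟩ | ⟨_, k', D1', h3, rfl⟩
      · exact absurd h2.symm (hC D1' (hS D' hD' _ _ h3) k _)
      · have hD1 := hS D hD _ _ hc
        have hD1' := hS D' hD' _ _ h3
        obtain ⟨Y2, h4, h5⟩ := h2.fwd (a := a0) (cf_mk.2 (Or.inl ⟨rfl, rfl⟩))
        rcases cf_mk.1 h4 with ⟨_, rfl⟩ | h4
        · have h6 := lb_pw_le (tw_enc (hN _ hD1)) h5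
          have h7 := lb_pw_le (tw_enc (hN _ hD1')) h5.symm
          have hkk : k = k' := by
            rcases lt_trichotomy k k' with h | h | h
            · exfalso
              have : (k + 1 + 1) * (N + 2) ≤ (k' + 1) * (N + 2) := Nat.mul_le_mul_right _ (by omega)
              have h8 : (k + 1 + 1) * (N + 2) = (k + 1) * (N + 2) + (N + 2) := by ring
              omega
            · exact h
            · exfalso
              have : (k' + 1 + 1) * (N + 2) ≤ (k + 1) * (N + 2) := Nat.mul_le_mul_right _ (by omega)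
              have h8 : (k' + 1 + 1) * (N + 2) = (k' + 1) * (N + 2) + (N + 2) := by ring
              omega
          subst hkk
          exact ⟨D1', h3, hD1, hD1', lb_pw h5⟩
        · exfalso
          have h6 := tw_pw_le (h5.symm.tw (hTN D1' hD1' _ _ h4))
          have : N + 2 ≤ (k + 1) * (N + 2) := Nat.le_mul_of_pos_left _ (by omega)
          omega
  refine ⟨fun D D' => D ∈ S ∧ D' ∈ S ∧
    LB (dF A) (D.map (inst (enc a0 (N + 2)))) (D'.map (inst (enc a0 (N + 2)))), ⟨?_, ?_, ?_⟩, hD, hD', hB⟩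
  · rintro D D' ⟨_, _, h⟩
    rw [← dnL_enc (a0 := a0) (Q := N + 2), ← dnL_enc (a0 := a0) (Q := N + 2) (D := D')]
    exact h.dn_iff
  · rintro D D' z D1 ⟨h1, h2, h3⟩ hc
    exact half D h1 D' h2 h3 z D1 hc
  · rintro D D' z D1' ⟨h1, h2, h3⟩ hc
    obtain ⟨D1, h4, h5, h6, h7⟩ := half D' h2 D h1 h3.symm z D1' hc
    exact ⟨D1, h4, h6, h5, h7.symm⟩

/-- A valid equation is a bisimulation of open terms. -/
theorem lb_of_all (a0 : A) {t u : Term (A ⊕ ℕ)}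
    (h : ∀ ρ : ℕ → Term A, LB (dF A) [inst (close ρ) t] [inst (close ρ) u]) : LB (dF _) [t] [u] := by
  have hb : ∀ X : List (List (Term (A ⊕ ℕ))), ∃ N, ∀ D ∈ X, TW N D := by
    intro X
    induction X with
    | nil => exact ⟨0, by simp⟩
    | cons D X ih =>
      obtain ⟨N, ih⟩ := ih
      obtain ⟨n, hn⟩ := exists_TW D
      refine ⟨N + n, ?_⟩
      intro D' hD'
      rcases List.mem_cons.1 hD' with rfl | hD'
      · exact hn.le (by omega)
      · exact (ih D' hD').le (by omega)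
  obtain ⟨N, hN⟩ := hb (RC t ++ RC u)
  refine encode (a0 := a0) (S := {D | D ∈ RC t ++ RC u}) (N := N) hN ?_ ?_ ?_ (h _)
  · intro D hD z D' hc
    rcases List.mem_append.1 hD with hD | hD
    · exact List.mem_append.2 (Or.inl (RC_step hD hc))
    · exact List.mem_append.2 (Or.inr (RC_step hD hc))
  · exact List.mem_append.2 (Or.inl (self_mem_RC t))
  · exact List.mem_append.2 (Or.inr (self_mem_RC u))

end Encode

end Pool.Agent.Helper501.Eps
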