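import Pool.Agent.Helper501.Eps.Defs

namespace Pool.Agent.Helper501.Eps

open Relation

open Term

section Lts

variable {L : Type*}

/-- Termination of a term, the atoms in `da` being terminated. -/
def dn (da : L → Prop) : Term L → Prop
  | eps => True
  | atom a => da a
  | plus s t => dn da s ∨ dn da t
  | seq s t => dn da s ∧ dn da t
  | kstar _ t => dn da t

/-- Termination of a stack. -/
def dnL (da : L → Prop) (D : List (Term L)) : Prop := ∀ t ∈ D, dn da t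

/-- Steps of a term; the result is a stack of terms to be executed. -/
def St (da : L → Prop) : Term L → L → List (Term L) → Prop
  | eps, _, _ => False
  | atom b, a, w => a = b ∧ w = []
  | plus s t, a, w => St da s a w ∨ St da t a w
  | seq s t, a, w => (∃ v, St da s a v ∧ w = v ++ [t]) ∨ (dn da s ∧ St da t a w)
  | kstar s t, a, w => (∃ v, St da s a v ∧ w = v ++ [kstar s t]) ∨ St da t a w

/-- Steps of a stack. -/
def Cf (da : L → Prop) : List (Term L) → L → List (Term L) → Prop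
  | [], _, _ => False
  | t :: R, a, D => (∃ w, St da t a w ∧ D = w ++ R) ∨ (dn da t ∧ Cf da R a D)

variable {da : L → Prop}

theorem dnL_append {D1 D2 : List (Term L)} : dnL da (D1 ++ D2) ↔ dnL da D1 ∧ dnL da D2 := by
  simp only [dnL, List.mem_append, or_imp, forall_and]

theorem dnL_nil : dnL da ([] : List (Term L)) := by simp [dnL]

theorem dnL_cons {t : Term L} {R : List (Term L)} : dnL da (t :: R) ↔ dn da t ∧ dnL da R := by simp [dnL]

theorem dnL_single {t : Term L} : dnL da [t] ↔ dn da t := by simp [dnL]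

theorem cf_nil {a : L} {w : List (Term L)} : ¬ Cf da [] a w := by simp [Cf]

theorem cf_single {t : Term L} {a : L} {w : List (Term L)} : Cf da [t] a w ↔ St da t a w := by
  simp [Cf]

theorem cf_append {D1 D2 : List (Term L)} {a : L} {D : List (Term L)} :
    Cf da (D1 ++ D2) a D ↔ (∃ D1', Cf da D1 a D1' ∧ D = D1' ++ D2) ∨ (dnL da D1 ∧ Cf da D2 a D) := by
  induction D1 generalizing D with
  | nil => simp [Cf, dnL_nil]
  | cons t R ih =>
    simp only [List.cons_append, Cf, ih, dnL_cons]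
    constructor
    · rintro (⟨w, h1, rfl⟩ | ⟨h1, ⟨D1', h2, rfl⟩ | ⟨h2, h3⟩⟩)
      · exact Or.inl ⟨w ++ R, Or.inl ⟨w, h1, rfl⟩, by simp⟩
      · exact Or.inl ⟨D1', Or.inr ⟨h1, h2⟩, rfl⟩
      · exact Or.inr ⟨⟨h1, h2⟩, h3⟩
    · rintro (⟨D1', ⟨w, h1, rfl⟩ | ⟨h1, h2⟩, rfl⟩ | ⟨⟨h1, h2⟩, h3⟩)
      · exact Or.inl ⟨w, h1, by simp⟩
      · exact Or.inr ⟨h1, Or.inl ⟨D1', h2, rfl⟩⟩
      · exact Or.inr ⟨h1, Or.inr ⟨h2, h3⟩⟩

theorem cf_seq {s t : Term L} {R : List (Term L)} {a : L} {D : List (Term L)} :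
    Cf da (seq s t :: R) a D ↔ Cf da (s :: t :: R) a D := by
  simp only [Cf, St]
  constructor
  · rintro (⟨w, ⟨v, h1, rfl⟩ | ⟨h1, h2⟩, rfl⟩ | ⟨⟨h1, h2⟩, h3⟩)
    · exact Or.inl ⟨v, h1, by simp⟩
    · exact Or.inr ⟨h1, Or.inl ⟨w, h2, rfl⟩⟩
    · exact Or.inr ⟨h1, Or.inr ⟨h2, h3⟩⟩
  · rintro (⟨w, h1, rfl⟩ | ⟨h1, ⟨w, h2, rfl⟩ | ⟨h2, h3⟩⟩)
    · exact Or.inl ⟨w ++ [t], Or.inl ⟨w, h1, rfl⟩, by simp⟩
    · exact Or.inl ⟨w, Or.inr ⟨h1, h2⟩, rfl⟩
    · exact Or.inr ⟨⟨h1, h2⟩, h3⟩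

/-- Steps of a stack, the action being forgotten. -/
def Sl (da : L → Prop) (D D' : List (Term L)) : Prop := ∃ a, Cf da D a D'

/-- Reachability. -/
abbrev LR (da : L → Prop) : List (Term L) → List (Term L) → Prop := ReflTransGen (Sl da)

/-- `D'` is entered from a configuration reachable from `D` by a step `z`. -/
def LS (da : L → Prop) (D : List (Term L)) (z : L) (D' : List (Term L)) : Prop := ∃ E, LR da D E ∧ Cf da E z D'

theorem LS.mono_head {D1 D2 : List (Term L)} (h1 : ∀ a w, Cf da D1 a w → Cf da D2 a w) {z : L} {D : List (Term L)}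
    (h : LS da D1 z D) : LS da D2 z D := by
  obtain ⟨E, h2, h3⟩ := h
  rcases ReflTransGen.cases_head h2 with rfl | ⟨E1, ⟨a, h4⟩, h5⟩
  · exact ⟨D2, ReflTransGen.refl, h1 _ _ h3⟩
  · exact ⟨E, ReflTransGen.head ⟨a, h1 _ _ h4⟩ h5, h3⟩

theorem LS.of_cf {D D' : List (Term L)} {z : L} (h : Cf da D z D') : LS da D z D' := ⟨D, ReflTransGen.refl, h⟩

theorem LS.of_lr {D E D' : List (Term L)} {z : L} (h1 : LR da D E) (h : LS da E z D') : LS da D z D' := by
  obtain ⟨E', h2, h3⟩ := h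
  exact ⟨E', h1.trans h2, h3⟩

theorem LS.lr {D D' : List (Term L)} {z : L} (h : LS da D z D') : LR da D D' := by
  obtain ⟨E', h2, h3⟩ := h
  exact h2.tail ⟨z, h3⟩

theorem Sl.append {D D' : List (Term L)} (h : Sl da D D') (R : List (Term L)) : Sl da (D ++ R) (D' ++ R) := by
  obtain ⟨a, h⟩ := h
  exact ⟨a, cf_append.2 (Or.inl ⟨D', h, rfl⟩)⟩

theorem LR.append {D D' : List (Term L)} (h : LR da D D') (R : List (Term L)) : LR da (D ++ R) (D' ++ R) := by
  induction h with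
  | refl => exact ReflTransGen.refl
  | tail _ h ih => exact ih.tail (h.append R)

/-- Every term can terminate. -/
theorem exists_dn (t : Term L) : ∃ D, LR da [t] D ∧ dnL da D := by
  induction t with
  | eps => exact ⟨[eps], ReflTransGen.refl, dnL_single.2 trivial⟩
  | atom a => exact ⟨[], ReflTransGen.single ⟨a, cf_single.2 ⟨rfl, rfl⟩⟩, dnL_nil⟩
  | plus s t ihs iht =>
    obtain ⟨D, h1, h2⟩ := ihs
    rcases ReflTransGen.cases_head h1 with rfl | ⟨E1, ⟨a, h4⟩, h5⟩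
    · exact ⟨[plus s t], ReflTransGen.refl, dnL_single.2 (Or.inl (dnL_single.1 h2))⟩
    · exact ⟨D, ReflTransGen.head ⟨a, cf_single.2 (Or.inl (cf_single.1 h4))⟩ h5, h2⟩
  | seq s t ihs iht =>
    obtain ⟨D, h1, h2⟩ := ihs
    obtain ⟨D', h1', h2'⟩ := iht
    -- from `D ++ [t]` one reaches a terminated configuration
    have h3 : ∃ E, LR da (D ++ [t]) E ∧ dnL da E := by
      rcases ReflTransGen.cases_head h1' with rfl | ⟨E1, ⟨a, h4⟩, h5⟩
      · exact ⟨D ++ [t], ReflTransGen.refl, dnL_append.2 ⟨h2, h2'⟩⟩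
      · exact ⟨D', ReflTransGen.head ⟨a, cf_append.2 (Or.inr ⟨h2, h4⟩)⟩ h5, h2'⟩
    obtain ⟨E, h3, h4⟩ := h3
    have h5 : LR da ([s] ++ [t]) E := (h1.append [t]).trans h3
    rcases ReflTransGen.cases_head h5 with rfl | ⟨E1, ⟨a, h6⟩, h7⟩
    · refine ⟨[seq s t], ReflTransGen.refl, ?_⟩
      rw [dnL_single]
      rw [dnL_append, dnL_single, dnL_single] at h4
      exact h4
    · exact ⟨E, ReflTransGen.head ⟨a, cf_seq.2 h6⟩ h7, h4⟩
  | kstar s t ihs iht =>
    obtain ⟨D, h1, h2⟩ := iht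
    rcases ReflTransGen.cases_head h1 with rfl | ⟨E1, ⟨a, h4⟩, h5⟩
    · have h3 : dn da t := dnL_single.1 h2
      exact ⟨[kstar s t], ReflTransGen.refl, dnL_single.2 h3⟩
    · exact ⟨D, ReflTransGen.head ⟨a, cf_single.2 (Or.inr (cf_single.1 h4))⟩ h5, h2⟩

/-- what is entered from the tail of a stack is entered from the stack -/
theorem LS.skip {t : Term L} {R D : List (Term L)} {z : L} (h : LS da R z D) : LS da (t :: R) z D := by
  obtain ⟨E, h1, h2⟩ := exists_dn (da := da) t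
  have h3 : LR da ([t] ++ R) (E ++ R) := h1.append R
  exact LS.of_lr h3 (LS.mono_head (fun a w hw => cf_append.2 (Or.inr ⟨h2, hw⟩)) h)

end Lts

section Inst

variable {L M : Type*}

theorem dn_inst {da : M → Prop} {σ : L → Term M} {t : Term L} :
    dn da (inst σ t) ↔ dn (fun z => dn da (σ z)) t := by
  induction t with
  | eps => exact Iff.rfl
  | atom a => exact Iff.rfl
  | plus s t ihs iht => simp only [inst, dn, ihs, iht]
  | seq s t ihs iht => simp only [inst, dn, ihs, iht]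
  | kstar s t ihs iht => simp only [inst, dn, iht]

theorem dnL_inst {da : M → Prop} {σ : L → Term M} {D : List (Term L)} :
    dnL da (D.map (inst σ)) ↔ dnL (fun z => dn da (σ z)) D := by
  simp only [dnL, List.forall_mem_map, dn_inst]

theorem st_inst {da : M → Prop} {σ : L → Term M} {t : Term L} {a : M} {w : List (Term M)} :
    St da (inst σ t) a w ↔ ∃ z w' r, St (fun z => dn da (σ z)) t z w' ∧ St da (σ z) a r ∧ w = r ++ w'.map (inst σ) := by
  induction t generalizing w with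
  | eps => simp [inst, St]
  | atom b =>
    constructor
    · intro h
      exact ⟨b, [], w, ⟨rfl, rfl⟩, h, by simp⟩
    · rintro ⟨z, w', r, ⟨rfl, rfl⟩, h, rfl⟩
      rw [List.map_nil, List.append_nil]
      exact h
  | plus s t ihs iht =>
    simp only [inst, St, ihs, iht]
    constructor
    · rintro (⟨z, w', r, h1, h2, h3⟩ | ⟨z, w', r, h1, h2, h3⟩)
      · exact ⟨z, w', r, Or.inl h1, h2, h3⟩
      · exact ⟨z, w', r, Or.inr h1, h2, h3⟩
    · rintro ⟨z, w', r, h1 | h1, h2, h3⟩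
      · exact Or.inl ⟨z, w', r, h1, h2, h3⟩
      · exact Or.inr ⟨z, w', r, h1, h2, h3⟩
  | seq s t ihs iht =>
    simp only [inst, St, ihs, iht, dn_inst]
    constructor
    · rintro (⟨_, ⟨z, w', r, h1, h2, rfl⟩, rfl⟩ | ⟨h0, z, w', r, h1, h2, h3⟩)
      · exact ⟨z, w' ++ [t], r, Or.inl ⟨w', h1, rfl⟩, h2, by simp⟩
      · exact ⟨z, w', r, Or.inr ⟨h0, h1⟩, h2, h3⟩
    · rintro ⟨z, w', r, ⟨w1, h1, rfl⟩ | ⟨h0, h1⟩, h2, rfl⟩
      · exact Or.inl ⟨r ++ w1.map (inst σ), ⟨z, w1, r, h1, h2, rfl⟩, by simp⟩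
      · exact Or.inr ⟨h0, z, w', r, h1, h2, rfl⟩
  | kstar s t ihs iht =>
    simp only [inst, St, ihs, iht]
    constructor
    · rintro (⟨_, ⟨z, w', r, h1, h2, rfl⟩, rfl⟩ | ⟨z, w', r, h1, h2, h3⟩)
      · exact ⟨z, w' ++ [kstar s t], r, Or.inl ⟨w', h1, rfl⟩, h2, by simp [inst]⟩
      · exact ⟨z, w', r, Or.inr h1, h2, h3⟩
    · rintro ⟨z, w', r, ⟨w1, h1, rfl⟩ | h1, h2, rfl⟩
      · exact Or.inl ⟨r ++ w1.map (inst σ), ⟨z, w1, r, h1, h2, rfl⟩, by simp [inst]⟩
      · exact Or.inr ⟨z, w', r, h1, h2, rfl⟩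

theorem cf_inst {da : M → Prop} {σ : L → Term M} {D : List (Term L)} {a : M} {w : List (Term M)} :
    Cf da (D.map (inst σ)) a w ↔
      ∃ z D' r, Cf (fun z => dn da (σ z)) D z D' ∧ St da (σ z) a r ∧ w = r ++ D'.map (inst σ) := by
  induction D generalizing w with
  | nil => simp [Cf]
  | cons t R ih =>
    simp only [List.map_cons, Cf, ih, st_inst, dn_inst]
    constructor
    · rintro (⟨_, ⟨z, w', r, h1, h2, rfl⟩, rfl⟩ | ⟨h0, z, D', r, h1, h2, h3⟩)
      · exact ⟨z, w' ++ R, r, Or.inl ⟨w', h1, rfl⟩, h2, by simp⟩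
      · exact ⟨z, D', r, Or.inr ⟨h0, h1⟩, h2, h3⟩
    · rintro ⟨z, D', r, ⟨w', h1, rfl⟩ | ⟨h0, h1⟩, h2, rfl⟩
      · exact Or.inl ⟨r ++ w'.map (inst σ), ⟨z, w', r, h1, h2, rfl⟩, by simp⟩
      · exact Or.inr ⟨h0, z, D', r, h1, h2, rfl⟩

theorem inst_inst {N : Type*} (σ : L → Term M) (τ : M → Term N) (t : Term L) :
    inst τ (inst σ t) = inst (fun z => inst τ (σ z)) t := by
  induction t with
  | eps => rfl
  | atom a => rfl
  | plus s t ihs iht => simp only [inst, ihs, iht]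
  | seq s t ihs iht => simp only [inst, ihs, iht]
  | kstar s t ihs iht => simp only [inst, ihs, iht]

theorem inst_atom (t : Term L) : inst atom t = t := by
  induction t with
  | eps => rfl
  | atom a => rfl
  | plus s t ihs iht => simp only [inst, ihs, iht]
  | seq s t ihs iht => simp only [inst, ihs, iht]
  | kstar s t ihs iht => simp only [inst, ihs, iht]

end Inst

end Pool.Agent.Helper501.Eps
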