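import Pool.Agent.Helper501.Eps.Encode

namespace Pool.Agent.Helper501.Eps

open Relation Term Ph

section Bridge

variable {A : Type*}

/-- the term of a stack -/
def fold (D : List (Term A)) : Term A := D.foldl seq eps

theorem fold_append (w : List (Term A)) (t : Term A) : fold (w ++ [t]) = seq (fold w) t := by
  simp [fold]

theorem down_iff {t : Term A} : Down t ↔ dn (dF A) t := by
  induction t with
  | eps => exact Iff.rfl
  | atom a => exact Iff.rfl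
  | plus s t ihs iht => exact or_congr ihs iht
  | seq s t ihs iht => exact and_congr ihs iht
  | kstar s t ihs iht => exact iht

theorem tr_iff {t : Term A} {a : A} {p : Term A} : Tr t a p ↔ ∃ w, St (dF A) t a w ∧ p = fold w := by
  constructor
  · intro h
    induction h with
    | atom a => exact ⟨[], ⟨rfl, rfl⟩, rfl⟩
    | plus_left _ ih => obtain ⟨w, h1, h2⟩ := ih; exact ⟨w, Or.inl h1, h2⟩
    | plus_right _ ih => obtain ⟨w, h1, h2⟩ := ih; exact ⟨w, Or.inr h1, h2⟩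
    | @seq_left p q p' a _ ih =>
      obtain ⟨w, h1, rfl⟩ := ih
      exact ⟨w ++ [q], Or.inl ⟨w, h1, rfl⟩, (fold_append _ _).symm⟩
    | seq_right h0 _ ih =>
      obtain ⟨w, h1, rfl⟩ := ih
      exact ⟨w, Or.inr ⟨down_iff.1 h0, h1⟩, rfl⟩
    | @kstar_left p q p' a _ ih =>
      obtain ⟨w, h1, rfl⟩ := ih
      exact ⟨w ++ [kstar p q], Or.inl ⟨w, h1, rfl⟩, (fold_append _ _).symm⟩
    | kstar_right _ ih => obtain ⟨w, h1, h2⟩ := ih; exact ⟨w, Or.inr h1, h2⟩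
  · rintro ⟨w, h1, rfl⟩
    induction t generalizing w with
    | eps => exact absurd h1 id
    | atom b => obtain ⟨rfl, rfl⟩ := h1; exact Tr.atom _
    | plus s t ihs iht =>
      rcases h1 with h1 | h1
      · exact Tr.plus_left (ihs w h1)
      · exact Tr.plus_right (iht w h1)
    | seq s t ihs iht =>
      rcases h1 with ⟨v, h1, rfl⟩ | ⟨h0, h1⟩
      · rw [fold_append]; exact Tr.seq_left (ihs v h1)
      · exact Tr.seq_right (down_iff.2 h0) (iht w h1)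
    | kstar s t ihs iht =>
      rcases h1 with ⟨v, h1, rfl⟩ | h1
      · rw [fold_append]; exact Tr.kstar_left (ihs v h1)
      · exact Tr.kstar_right (iht w h1)

theorem tr_seq {p q : Term A} {a : A} {r : Term A} :
    Tr (seq p q) a r ↔ (∃ p', Tr p a p' ∧ r = seq p' q) ∨ (Down p ∧ Tr q a r) := by
  constructor
  · intro h
    cases h with
    | seq_left h => exact Or.inl ⟨_, h, rfl⟩
    | seq_right h0 h => exact Or.inr ⟨h0, h⟩
  · rintro (⟨p', h, rfl⟩ | ⟨h0, h⟩)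
    · exact Tr.seq_left h
    · exact Tr.seq_right h0 h

theorem down_fold {D : List (Term A)} : Down (fold D) ↔ dnL (dF A) D := by
  induction D using List.reverseRecOn with
  | nil => simp [fold, Down, dnL]
  | append_singleton R r ih =>
    rw [fold_append, dnL_append, dnL_single, ← down_iff, ← ih]
    exact Iff.rfl

theorem tr_fold {D : List (Term A)} {a : A} {p : Term A} :
    Tr (fold D) a p ↔ ∃ D', Cf (dF A) D a D' ∧ p = fold D' := by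
  induction D using List.reverseRecOn generalizing p with
  | nil =>
    constructor
    · intro h; cases h
    · rintro ⟨D', h, _⟩; exact absurd h cf_nil
  | append_singleton R r ih =>
    rw [fold_append, tr_seq]
    constructor
    · rintro (⟨p', h, rfl⟩ | ⟨h0, h⟩)
      · obtain ⟨w, h1, rfl⟩ := ih.1 h
        exact ⟨w ++ [r], cf_append.2 (Or.inl ⟨w, h1, rfl⟩), (fold_append _ _).symm⟩
      · obtain ⟨w, h1, rfl⟩ := tr_iff.1 h
        exact ⟨w, cf_append.2 (Or.inr ⟨down_fold.1 h0, cf_single.2 h1⟩), rfl⟩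
    · rintro ⟨w, h1, rfl⟩
      rcases cf_append.1 h1 with ⟨v, h2, rfl⟩ | ⟨h0, h2⟩
      · exact Or.inl ⟨fold v, ih.2 ⟨v, h2, rfl⟩, fold_append _ _⟩
      · exact Or.inr ⟨down_fold.2 h0, tr_iff.2 ⟨w, cf_single.1 h2, rfl⟩⟩

/-- a term representing a stack -/
def Rep (p : Term A) (D : List (Term A)) : Prop := p = fold D ∨ D = [p]

theorem Rep.down {p : Term A} {D : List (Term A)} (h : Rep p D) : Down p ↔ dnL (dF A) D := by
  rcases h with rfl | rfl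
  · exact down_fold
  · rw [dnL_single]; exact down_iff

theorem Rep.tr {p : Term A} {D : List (Term A)} (h : Rep p D) {a : A} {p' : Term A} :
    Tr p a p' ↔ ∃ D', Cf (dF A) D a D' ∧ p' = fold D' := by
  rcases h with rfl | rfl
  · exact tr_fold
  · simp only [cf_single]; exact tr_iff

theorem lb_of_bisim {p q : Term A} (h : Bisim p q) : LB (dF A) [p] [q] := by
  obtain ⟨R, hR, h⟩ := h
  have half : ∀ D D' a D1, (∃ p q, Rep p D ∧ Rep q D' ∧ R p q) → Cf (dF A) D a D1 →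
      ∃ D1', Cf (dF A) D' a D1' ∧ ∃ p q, Rep p D1 ∧ Rep q D1' ∧ R p q := by
    rintro D D' a D1 ⟨p, q, h1, h2, h3⟩ hc
    obtain ⟨q', h4, h5⟩ := hR.step _ _ _ _ h3 (h1.tr.2 ⟨D1, hc, rfl⟩)
    obtain ⟨D1', h6, rfl⟩ := h2.tr.1 h4
    exact ⟨D1', h6, _, _, Or.inl rfl, Or.inl rfl, h5⟩
  refine ⟨fun D D' => ∃ p q, Rep p D ∧ Rep q D' ∧ R p q, ⟨?_, half, ?_⟩, p, q, Or.inr rfl, Or.inr rfl, h⟩
  · rintro D D' ⟨p, q, h1, h2, h3⟩
    rw [← h1.down, ← h2.down]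
    exact ⟨hR.down _ _ h3, hR.down _ _ (hR.symm _ _ h3)⟩
  · rintro D D' a D1 ⟨p, q, h1, h2, h3⟩ hc
    obtain ⟨D2, h4, p', q', h5, h6, h7⟩ := half D' D a D1 ⟨q, p, h2, h1, hR.symm _ _ h3⟩ hc
    exact ⟨D2, h4, q', p', h6, h5, hR.symm _ _ h7⟩

theorem bisim_of_lb {p q : Term A} (h : LB (dF A) [p] [q]) : Bisim p q := by
  refine ⟨fun p q => ∃ D D', Rep p D ∧ Rep q D' ∧ LB (dF A) D D', ⟨?_, ?_, ?_⟩, _, _, Or.inr rfl, Or.inr rfl, h⟩
  · rintro p q ⟨D, D', h1, h2, h3⟩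
    exact ⟨D', D, h2, h1, h3.symm⟩
  · rintro p q a p' ⟨D, D', h1, h2, h3⟩ hc
    obtain ⟨D1, h4, rfl⟩ := h1.tr.1 hc
    obtain ⟨D1', h5, h6⟩ := h3.fwd h4
    exact ⟨fold D1', h2.tr.2 ⟨D1', h5, rfl⟩, D1, D1', Or.inl rfl, Or.inl rfl, h6⟩
  · rintro p q ⟨D, D', h1, h2, h3⟩ hd
    exact h2.down.2 (h3.dn_iff.1 (h1.down.1 hd))

theorem lb_of_valid [Nonempty A] {t u : Term (A ⊕ ℕ)} (h : Valid t u) : LB (dF _) [t] [u] := by
  obtain ⟨a0⟩ := ‹Nonempty A›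
  exact lb_of_all a0 (fun ρ => lb_of_bisim (h ρ))

end Bridge

section Derivation

variable {A : Type*} {M : ℕ}

/-- equality of types -/
def TyEq (M : ℕ) (p q : Term A) : Prop :=
  (dn (dF A) p ↔ dn (dF A) q) ∧ ∀ (F : Set Ph) (fl : Prop) (H : Set Ph), Ty (dF A) (TB A M) p F fl H ↔ Ty (dF A) (TB A M) q F fl H

theorem inst_osub (ρ : ℕ → Term A) (τ : ℕ → Term (A ⊕ ℕ)) (t : Term (A ⊕ ℕ)) :
    inst (close ρ) (inst (osub τ) t) = inst (close (fun k => inst (close ρ) (τ k))) t := by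
  rw [inst_inst]
  congr 1
  funext z
  rcases z with a | k <;> rfl

theorem der_ty [Nonempty A] (hM : 2 ≤ M) {E : Set (Term (A ⊕ ℕ) × Term (A ⊕ ℕ))}
    (hE : ∀ t u, (t, u) ∈ E → Valid t u ∧ (RC t).length < M ∧ (RC u).length < M) {t u : Term (A ⊕ ℕ)}
    (h : Der E t u) (ρ : ℕ → Term A) : TyEq M (inst (close ρ) t) (inst (close ρ) u) := by
  induction h with
  | @ax t u h τ =>
    obtain ⟨h1, h2, h3⟩ := hE t u h
    rw [inst_osub, inst_osub]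
    refine ⟨?_, ty_axiom hM h2 h3 (lb_of_valid h1)⟩
    have := (lb_of_bisim (h1 (fun k => inst (close ρ) (τ k)))).dn_iff
    rwa [dnL_single, dnL_single] at this
  | refl t => exact ⟨Iff.rfl, fun _ _ _ => Iff.rfl⟩
  | symm _ ih => exact ⟨ih.1.symm, fun F fl H => (ih.2 F fl H).symm⟩
  | trans _ _ ih1 ih2 => exact ⟨ih1.1.trans ih2.1, fun F fl H => (ih1.2 F fl H).trans (ih2.2 F fl H)⟩
  | plus _ _ ih1 ih2 =>
    refine ⟨?_, fun F fl H => ?_⟩
    · simp only [inst, dn, ih1.1, ih2.1]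
    · simp only [inst, Ty, ih1.2, ih2.2]
  | seq _ _ ih1 ih2 =>
    refine ⟨?_, fun F fl H => ?_⟩
    · simp only [inst, dn, ih1.1, ih2.1]
    · simp only [inst, Ty, ih1.1, ih2.1, ih1.2, ih2.2]
  | kstar _ _ ih1 ih2 =>
    refine ⟨?_, fun F fl H => ?_⟩
    · simp only [inst, dn, ih2.1]
    · simp only [inst, Ty, ih2.1, ih1.2, ih2.2]

end Derivation

end Pool.Agent.Helper501.Eps

namespace Pool.Agent.Helper501.Eps

open Relation Term Ph

section Family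

variable {A : Type*}

/-- `KK 0 = eps + aa` and `KK (j+1) = eps + a (KK j)` -/
def KK (a : A) : ℕ → Term A
  | 0 => plus eps (seq (atom a) (atom a))
  | j + 1 => plus eps (seq (atom a) (KK a j))

/-- the left-hand side -/
def lhs (a : A) (m : ℕ) : Term A := kstar (plus (atom a) (seq (seq (atom a) (atom a)) (KK a m))) eps

/-- the right-hand side -/
def rhs (a : A) : Term A := kstar (plus (atom a) (seq (atom a) (atom a))) eps

theorem dn_KK {a : A} {j : ℕ} : dn (dF A) (KK a j) := by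
  cases j with
  | zero => exact Or.inl trivial
  | succ j => exact Or.inl trivial

theorem val_soft {M i : ℕ} (hi : i ≤ M) {G : Set Ph} {fl : Prop} (hf : fl) (hG : G = RR ∪ core M (sf i)) : Val M (sf i) G fl := by
  subst hG
  refine ⟨⟨fun _ => hf, fun _ => trivial⟩, Set.subset_union_right, subset_rfl, ?_⟩
  intro j hj
  simp only [sf.injEq] at hj
  omega

theorem cut_dF {a : A} {F : Set Ph} : cut (dn (dF A) (atom a)) F = ∅ := cut_false (fun h => h)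

theorem ty_aa {M : ℕ} {a : A} {i : ℕ} (hi : i ≤ M) {G : Set Ph} {fl : Prop} (hf : fl) (hG : G = RR ∪ core M (sf i))
    {k : Ph} (hk : ∀ p : Prop, ¬ p → Val M k {sf i} p) : Ty (dF A) (TB A M) (seq (atom a) (atom a)) G fl {k} := by
  refine ⟨{sf i}, {k}, ⟨sf i, val_soft hi hf hG, rfl⟩, ⟨k, ?_, rfl⟩, ?_⟩
  · rw [cut_dF, Set.union_empty]
    exact hk _ (fun h => h.1)
  · rw [cut_dF, Set.union_empty]

theorem val_he {M : ℕ} (p : Prop) (hp : ¬ p) : Val M he {sf 0} p :=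
  ⟨⟨fun h => absurd h id, fun h => absurd h hp⟩, subset_rfl, subset_rfl, by intro i h; cases h⟩

theorem val_hb {M : ℕ} (p : Prop) (hp : ¬ p) : Val M hb {sf M} p :=
  ⟨⟨fun h => absurd h id, fun h => absurd h hp⟩, subset_rfl, subset_rfl, by intro i h; cases h⟩

theorem ty_KK {M : ℕ} {a : A} {j : ℕ} (hj : j ≤ M) : Ty (dF A) (TB A M) (KK a j) RR True (core M (sf (j + 1))) := by
  induction j with
  | zero =>
    refine ⟨∅, {he}, rfl, ty_aa (i := 0) (by omega) trivial (by simp [core]) val_he, ?_⟩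
    simp [core]
  | succ j ih =>
    refine ⟨∅, {sf (j + 1)}, rfl, ?_, by simp [core]⟩
    refine ⟨core M (sf (j + 1)), {sf (j + 1)}, ih (by omega), ⟨sf (j + 1), val_soft hj ⟨dn_KK, trivial⟩ ?_, rfl⟩, ?_⟩
    · rw [cut_true dn_KK, Set.union_comm]
    · rw [cut_dF, Set.union_empty]

theorem ty_lhs {a : A} {m : ℕ} : Ty (dF A) (TB A (m + 1)) (lhs a m) ∅ True RR := by
  have e1 : cut (dn (dF A) (eps : Term A)) (∅ : Set Ph) = ∅ := by ext x; simp [cut]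
  refine ⟨∅, RR, rfl, ?_, by simp⟩
  rw [e1, Set.union_empty, Set.union_empty]
  refine ⟨{sf 0}, {hb}, ⟨sf 0, val_soft (by omega) ⟨trivial, trivial⟩ (by simp [core]), rfl⟩, ?_, by rw [Set.singleton_union]; rfl⟩
  have e : (dn (dF A) (eps : Term A) ∧ True) = True := by simp [dn]
  rw [e]
  refine ⟨core (m + 1) (sf (m + 1)), {hb}, ty_KK (by omega), ?_, ?_⟩
  · rw [cut_true dn_KK, Set.union_comm]
    exact ty_aa (i := m + 1) (by omega) ⟨dn_KK, trivial⟩ rfl val_hb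
  · rw [cut_false (fun h => h.1), Set.union_empty]

theorem not_ty_rhs {M : ℕ} (hM : 1 ≤ M) {a : A} {H : Set Ph} : ¬ Ty (dF A) (TB A M) (rhs a) ∅ True H := by
  rintro ⟨Ht, Hs, h0, ⟨H1, H2, ⟨k, h1, rfl⟩, ⟨_, _, ⟨k2, h2, rfl⟩, ⟨k3, h3, rfl⟩, h4⟩, h5⟩, _⟩
  have h0 : Ht = ∅ := h0
  subst h0
  have e1 : cut (dn (dF A) (eps : Term A)) (∅ : Set Ph) = ∅ := by ext x; simp [cut]
  rw [e1, Set.union_empty, Set.union_empty] at h1 h2
  rw [cut_dF, Set.union_empty] at h3 h4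
  obtain rfl := Val_fun hM h1 h2 rfl
  obtain ⟨i, rfl⟩ := sf_of_soft (h1.1.2 ⟨trivial, trivial⟩)
  subst h4
  have h6 : sf i ∈ Hs := by rw [h5]; exact Or.inl rfl
  have h7 : k3 ∈ Hs := by rw [h5]; exact Or.inr rfl
  have h8 : i = 0 := by
    rcases i with _ | i
    · rfl
    · exact absurd (h1.2.2.1 h6) sf_not_SS
  subst h8
  have h9 := h1.2.2.1 h7
  have h10 : ¬ soft k3 := fun h => (h3.1.1 h).1
  have h11 : k3 = hb := by
    rcases h9 with (h9 | h9) | h9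
    · rw [h9] at h10; exact absurd trivial h10
    · exact h9
    · exact absurd h9 (by simp [core])
  subst h11
  have h12 : sf M = sf 0 := h3.2.1 rfl
  simp only [sf.injEq] at h12
  omega

theorem st_KK_zero {a b : A} {w : List (Term A)} : St (dF A) (KK a 0) b w ↔ b = a ∧ w = [atom a] := by
  simp only [KK, St, dn, dF, false_or, false_and, or_false]
  constructor
  · rintro ⟨v, ⟨rfl, rfl⟩, rfl⟩; exact ⟨rfl, rfl⟩
  · rintro ⟨rfl, rfl⟩; exact ⟨[], ⟨rfl, rfl⟩, rfl⟩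

theorem st_KK_succ {a b : A} {j : ℕ} {w : List (Term A)} : St (dF A) (KK a (j + 1)) b w ↔ b = a ∧ w = [KK a j] := by
  simp only [KK, St, dn, dF, false_or, false_and, or_false]
  constructor
  · rintro ⟨v, ⟨rfl, rfl⟩, rfl⟩; exact ⟨rfl, rfl⟩
  · rintro ⟨rfl, rfl⟩; exact ⟨[], ⟨rfl, rfl⟩, rfl⟩

theorem st_lhs {a b : A} {m : ℕ} {w : List (Term A)} :
    St (dF A) (lhs a m) b w ↔ b = a ∧ (w = [lhs a m] ∨ w = [atom a, KK a m, lhs a m]) := by
  constructor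
  · rintro (⟨v, (⟨rfl, rfl⟩ | (⟨_, ⟨v, ⟨rfl, rfl⟩, rfl⟩ | ⟨h, _⟩, rfl⟩ | ⟨h, _⟩)), rfl⟩ | h)
    · exact ⟨rfl, Or.inl rfl⟩
    · exact ⟨rfl, Or.inr rfl⟩
    · exact absurd h id
    · exact absurd h.1 id
    · exact absurd h id
  · rintro ⟨rfl, rfl | rfl⟩
    · exact Or.inl ⟨[], Or.inl ⟨rfl, rfl⟩, rfl⟩
    · exact Or.inl ⟨[atom b, KK b m], Or.inr (Or.inl ⟨[atom b], Or.inl ⟨[], ⟨rfl, rfl⟩, rfl⟩, rfl⟩), rfl⟩

theorem st_rhs {a b : A} {w : List (Term A)} :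
    St (dF A) (rhs a) b w ↔ b = a ∧ (w = [rhs a] ∨ w = [atom a, rhs a]) := by
  constructor
  · rintro (⟨v, (⟨rfl, rfl⟩ | (⟨v, ⟨rfl, rfl⟩, rfl⟩ | ⟨h, _⟩)), rfl⟩ | h)
    · exact ⟨rfl, Or.inl rfl⟩
    · exact ⟨rfl, Or.inr rfl⟩
    · exact absurd h id
    · exact absurd h id
  · rintro ⟨rfl, rfl | rfl⟩
    · exact Or.inl ⟨[], Or.inl ⟨rfl, rfl⟩, rfl⟩
    · exact Or.inl ⟨[atom b], Or.inr (Or.inl ⟨[], ⟨rfl, rfl⟩, rfl⟩), rfl⟩

theorem cf_atom {a b : A} {X w : List (Term A)} : Cf (dF A) (atom a :: X) b w ↔ b = a ∧ w = X := by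
  simp only [Cf, St, dn, dF, false_and, or_false]
  constructor
  · rintro ⟨v, ⟨rfl, rfl⟩, rfl⟩; exact ⟨rfl, rfl⟩
  · rintro ⟨rfl, rfl⟩; exact ⟨[], ⟨rfl, rfl⟩, rfl⟩

/-- the two sides are bisimilar -/
theorem lhs_bisim (a : A) (m : ℕ) : Bisim (lhs a m) (rhs a) := by
  apply bisim_of_lb
  -- soft and hard configurations of the left-hand side
  let Sf : List (Term A) → Prop := fun D => D = [lhs a m] ∨ ∃ j, D = [KK a j, lhs a m]
  let Hd : List (Term A) → Prop := fun D => ∃ X, Sf X ∧ D = atom a :: X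
  have hSf : ∀ D, Sf D → dnL (dF A) D ∧ (∀ b D1, Cf (dF A) D b D1 → b = a ∧ (Sf D1 ∨ Hd D1)) ∧
      Cf (dF A) D a [lhs a m] ∧ Cf (dF A) D a [atom a, KK a m, lhs a m] := by
    have h1 : Cf (dF A) [lhs a m] a [lhs a m] := cf_single.2 (st_lhs.2 ⟨rfl, Or.inl rfl⟩)
    have h2 : Cf (dF A) [lhs a m] a [atom a, KK a m, lhs a m] := cf_single.2 (st_lhs.2 ⟨rfl, Or.inr rfl⟩)
    have h3 : ∀ b D1, Cf (dF A) [lhs a m] b D1 → b = a ∧ (Sf D1 ∨ Hd D1) := by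
      intro b D1 hc
      obtain ⟨rfl, rfl | rfl⟩ := st_lhs.1 (cf_single.1 hc)
      · exact ⟨rfl, Or.inl (Or.inl rfl)⟩
      · exact ⟨rfl, Or.inr ⟨_, Or.inr ⟨m, rfl⟩, rfl⟩⟩
    rintro D (rfl | ⟨j, rfl⟩)
    · exact ⟨dnL_single.2 trivial, h3, h1, h2⟩
    · refine ⟨dnL_cons.2 ⟨dn_KK, dnL_single.2 trivial⟩, ?_, Or.inr ⟨dn_KK, h1⟩, Or.inr ⟨dn_KK, h2⟩⟩
      rintro b D1 (⟨w, hw, rfl⟩ | ⟨_, hc⟩)
      · rcases j with _ | j
        · obtain ⟨rfl, rfl⟩ := st_KK_zero.1 hw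
          exact ⟨rfl, Or.inr ⟨_, Or.inl rfl, rfl⟩⟩
        · obtain ⟨rfl, rfl⟩ := st_KK_succ.1 hw
          exact ⟨rfl, Or.inl (Or.inr ⟨j, rfl⟩)⟩
      · exact h3 b D1 hc
  refine ⟨fun D D' => (Sf D ∧ D' = [rhs a]) ∨ (Hd D ∧ D' = [atom a, rhs a]), ⟨?_, ?_, ?_⟩, Or.inl ⟨Or.inl rfl, rfl⟩⟩
  · rintro D D' (⟨h, rfl⟩ | ⟨⟨X, _, rfl⟩, rfl⟩)
    · exact ⟨fun _ => dnL_single.2 trivial, fun _ => (hSf D h).1⟩
    · rw [dnL_cons, dnL_cons]
      exact ⟨fun h => absurd h.1 id, fun h => absurd h.1 id⟩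
  · rintro D D' b D1 (⟨h, rfl⟩ | ⟨⟨X, hX, rfl⟩, rfl⟩) hc
    · obtain ⟨rfl, h1 | h1⟩ := (hSf D h).2.1 b D1 hc
      · exact ⟨_, cf_single.2 (st_rhs.2 ⟨rfl, Or.inl rfl⟩), Or.inl ⟨h1, rfl⟩⟩
      · exact ⟨_, cf_single.2 (st_rhs.2 ⟨rfl, Or.inr rfl⟩), Or.inr ⟨h1, rfl⟩⟩
    · obtain ⟨rfl, rfl⟩ := cf_atom.1 hc
      exact ⟨_, cf_atom.2 ⟨rfl, rfl⟩, Or.inl ⟨hX, rfl⟩⟩
  · rintro D D' b D1 (⟨h, rfl⟩ | ⟨⟨X, hX, rfl⟩, rfl⟩) hc
    · obtain ⟨rfl, rfl | rfl⟩ := st_rhs.1 (cf_single.1 hc)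
      · exact ⟨_, (hSf D h).2.2.1, Or.inl ⟨Or.inl rfl, rfl⟩⟩
      · exact ⟨_, (hSf D h).2.2.2, Or.inr ⟨⟨_, Or.inr ⟨m, rfl⟩, rfl⟩, rfl⟩⟩
    · obtain ⟨rfl, rfl⟩ := cf_atom.1 hc
      exact ⟨_, cf_atom.2 ⟨rfl, rfl⟩, Or.inl ⟨hX, rfl⟩⟩

theorem inst_emb (ρ : ℕ → Term A) (p : Term A) : inst (close ρ) (emb p) = p := by
  rw [emb, inst_inst]
  exact inst_atom p

/-- No finite basis. -/
theorem main [Nonempty A] (E : Set (Term (A ⊕ ℕ) × Term (A ⊕ ℕ))) (hE : IsBasis E) : E.Infinite := by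
  obtain ⟨hs, hc⟩ := hE
  intro hfin
  obtain ⟨a⟩ := ‹Nonempty A›
  haveI : Nonempty A := ⟨a⟩
  obtain ⟨B, hB⟩ : ∃ B, ∀ e ∈ E, (RC e.1).length ≤ B ∧ (RC e.2).length ≤ B := by
    obtain ⟨B, hB⟩ := (hfin.image (fun e => (RC e.1).length + (RC e.2).length)).bddAbove
    refine ⟨B, fun e he => ?_⟩
    have := hB ⟨e, he, rfl⟩
    simp only at this
    omega
  have key := der_ty (M := B + 2) (by omega) (fun t u h => ⟨hs _ h, by have := (hB _ h).1; simp only at this; omega,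
    by have := (hB _ h).2; simp only at this; omega⟩) (hc _ _ (lhs_bisim a (B + 1))) (fun _ => eps)
  rw [inst_emb, inst_emb] at key
  exact not_ty_rhs (by omega) ((key.2 ∅ True RR).1 ty_lhs)

theorem osub_atom : osub (fun k => atom (Sum.inr k)) = (atom : A ⊕ ℕ → Term (A ⊕ ℕ)) := by
  funext z
  rcases z with a | k <;> rfl

/-- The set of all valid equations is a basis. -/
theorem isBasis_valid (A : Type*) : IsBasis {e : Term (A ⊕ ℕ) × Term (A ⊕ ℕ) | Valid e.1 e.2} := by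
  refine ⟨fun e he => he, fun p q h => ?_⟩
  have h1 : Valid (emb p) (emb q) := by
    intro ρ
    rw [inst_emb, inst_emb]
    exact h
  have := Der.ax (E := {e : Term (A ⊕ ℕ) × Term (A ⊕ ℕ) | Valid e.1 e.2}) (t := emb p) (u := emb q) h1
    (fun k => atom (Sum.inr k))
  rwa [osub_atom, inst_atom, inst_atom] at this

end Family

end Pool.Agent.Helper501.Eps
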