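import Pool.Agent.Helper501.Eps.Typing

namespace Pool.Agent.Helper501.Eps

open Relation Term Ph

section Bis

variable {L : Type*}

/-- bisimulations on stacks -/
structure IsLB (da : L → Prop) (R : List (Term L) → List (Term L) → Prop) : Prop where
  dn_iff : ∀ D D', R D D' → (dnL da D ↔ dnL da D')
  fwd : ∀ D D' a D1, R D D' → Cf da D a D1 → ∃ D1', Cf da D' a D1' ∧ R D1 D1'
  bwd : ∀ D D' a D1', R D D' → Cf da D' a D1' → ∃ D1, Cf da D a D1 ∧ R D1 D1'

/-- bisimilarity of stacks -/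
def LB (da : L → Prop) (D D' : List (Term L)) : Prop := ∃ R, IsLB da R ∧ R D D'

variable {da : L → Prop}

theorem LB.refl (D : List (Term L)) : LB da D D :=
  ⟨Eq, ⟨fun _ _ h => by rw [h], fun _ _ _ D1 h hc => ⟨D1, h ▸ hc, rfl⟩, fun _ _ _ D1 h hc => ⟨D1, h.symm ▸ hc, rfl⟩⟩, rfl⟩

theorem LB.symm {D D' : List (Term L)} (h : LB da D D') : LB da D' D := by
  obtain ⟨R, hR, h⟩ := h
  exact ⟨fun x y => R y x, ⟨fun _ _ h => (hR.dn_iff _ _ h).symm, fun _ _ a D1 h hc => hR.bwd _ _ a D1 h hc,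
    fun _ _ a D1 h hc => hR.fwd _ _ a D1 h hc⟩, h⟩

theorem LB.trans {D D' D'' : List (Term L)} (h : LB da D D') (h' : LB da D' D'') : LB da D D'' := by
  obtain ⟨R, hR, h⟩ := h
  obtain ⟨R', hR', h'⟩ := h'
  refine ⟨fun x z => ∃ y, R x y ∧ R' y z, ⟨?_, ?_, ?_⟩, D', h, h'⟩
  · rintro x z ⟨y, h1, h2⟩
    exact (hR.dn_iff _ _ h1).trans (hR'.dn_iff _ _ h2)
  · rintro x z a x1 ⟨y, h1, h2⟩ hc
    obtain ⟨y1, h3, h4⟩ := hR.fwd _ _ _ _ h1 hc
    obtain ⟨z1, h5, h6⟩ := hR'.fwd _ _ _ _ h2 h3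
    exact ⟨z1, h5, y1, h4, h6⟩
  · rintro x z a z1 ⟨y, h1, h2⟩ hc
    obtain ⟨y1, h3, h4⟩ := hR'.bwd _ _ _ _ h2 hc
    obtain ⟨x1, h5, h6⟩ := hR.bwd _ _ _ _ h1 h3
    exact ⟨x1, h5, y1, h6, h4⟩

theorem LB.dn_iff {D D' : List (Term L)} (h : LB da D D') : dnL da D ↔ dnL da D' := by
  obtain ⟨R, hR, h⟩ := h
  exact hR.dn_iff _ _ h

theorem LB.fwd {D D' : List (Term L)} (h : LB da D D') {a : L} {D1 : List (Term L)} (hc : Cf da D a D1) :
    ∃ D1', Cf da D' a D1' ∧ LB da D1 D1' := by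
  obtain ⟨R, hR, h⟩ := h
  obtain ⟨D1', h1, h2⟩ := hR.fwd _ _ _ _ h hc
  exact ⟨D1', h1, R, hR, h2⟩

theorem LB.bwd {D D' : List (Term L)} (h : LB da D D') {a : L} {D1' : List (Term L)} (hc : Cf da D' a D1') :
    ∃ D1, Cf da D a D1 ∧ LB da D1 D1' := by
  obtain ⟨D1, h1, h2⟩ := h.symm.fwd hc
  exact ⟨D1, h1, h2.symm⟩

theorem LB.of_step {D D' : List (Term L)} (h0 : dnL da D ↔ dnL da D')
    (h1 : ∀ a D1, Cf da D a D1 → ∃ D1', Cf da D' a D1' ∧ LB da D1 D1')
    (h2 : ∀ a D1', Cf da D' a D1' → ∃ D1, Cf da D a D1 ∧ LB da D1 D1') : LB da D D' := by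
  refine ⟨fun x y => LB da x y ∨ (x = D ∧ y = D'), ⟨?_, ?_, ?_⟩, Or.inr ⟨rfl, rfl⟩⟩
  · rintro x y (h | ⟨rfl, rfl⟩)
    · exact h.dn_iff
    · exact h0
  · rintro x y a x1 (h | ⟨rfl, rfl⟩) hc
    · obtain ⟨y1, h3, h4⟩ := h.fwd hc
      exact ⟨y1, h3, Or.inl h4⟩
    · obtain ⟨y1, h3, h4⟩ := h1 a x1 hc
      exact ⟨y1, h3, Or.inl h4⟩
  · rintro x y a y1 (h | ⟨rfl, rfl⟩) hc
    · obtain ⟨x1, h3, h4⟩ := h.bwd hc
      exact ⟨x1, h3, Or.inl h4⟩
    · obtain ⟨x1, h3, h4⟩ := h2 a y1 hc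
      exact ⟨x1, h3, Or.inl h4⟩

theorem LB.lr {D D' E : List (Term L)} (h : LB da D D') (hr : LR da D E) : ∃ E', LR da D' E' ∧ LB da E E' := by
  induction hr with
  | refl => exact ⟨D', ReflTransGen.refl, h⟩
  | tail _ h1 ih =>
    obtain ⟨E', h2, h3⟩ := ih
    obtain ⟨a, h1⟩ := h1
    obtain ⟨E2, h4, h5⟩ := h3.fwd h1
    exact ⟨E2, h2.tail ⟨a, h4⟩, h5⟩

theorem LB.ls {D D' E : List (Term L)} {z : L} (h : LB da D D') (hr : LS da D z E) :
    ∃ E', LS da D' z E' ∧ LB da E E' := by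
  obtain ⟨E1, h1, h2⟩ := hr
  obtain ⟨E1', h3, h4⟩ := h.lr h1
  obtain ⟨E', h5, h6⟩ := h4.fwd h2
  exact ⟨E', ⟨E1', h3, h5⟩, h6⟩

end Bis

section Pairs

variable {L A : Type*} {M : ℕ} {σ : L → Term A} {l : Term L} {F : Set Ph} {fl : Prop}

/-- atoms replaced by terminated terms -/
def dS (σ : L → Term A) : L → Prop := fun z => dn (dF A) (σ z)

/-- typing of atoms replaced by terms -/
def TS (M : ℕ) (σ : L → Term A) : L → Set Ph → Prop → Set Ph → Prop := fun z => Ty (dF A) (TB A M) (σ z)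

/-- properly reachable -/
def PR (σ : L → Term A) (l : Term L) (c : List (Term L)) : Prop := ∃ z, LS (dS σ) [l] z c

theorem PR.next {c c' : List (Term L)} {z : L} (h : PR σ l c) (hc : Cf (dS σ) c z c') : PR σ l c' := by
  obtain ⟨y, h⟩ := h
  exact ⟨z, c, h.lr, hc⟩

/-- a pair of configurations with a common stack of closed terms, over bisimilar stacks of open terms -/
def RP (M : ℕ) (σ : L → Term A) (l : Term L) (F : Set Ph) (fl : Prop) (p1 p2 : Ph) (K1 K2 : Set Ph) : Prop :=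
  ∃ c1 c2 G1 G2 r, PR σ l c1 ∧ PR σ l c2 ∧ LB (dS σ) c1 c2 ∧ TyL (dS σ) (TS M σ) c1 F fl G1 ∧
    TyL (dS σ) (TS M σ) c2 F fl G2 ∧ TyL (dF A) (TB A M) r G1 (dnL (dS σ) c1 ∧ fl) K1 ∧
    TyL (dF A) (TB A M) r G2 (dnL (dS σ) c2 ∧ fl) K2 ∧ Val M p1 K1 (dnL (dF A) r ∧ dnL (dS σ) c1 ∧ fl) ∧
    Val M p2 K2 (dnL (dF A) r ∧ dnL (dS σ) c2 ∧ fl)

theorem RP.symm {p1 p2 : Ph} {K1 K2 : Set Ph} (h : RP M σ l F fl p1 p2 K1 K2) : RP M σ l F fl p2 p1 K2 K1 := by
  obtain ⟨c1, c2, G1, G2, r, h1, h2, h3, h4, h5, h6, h7, h8, h9⟩ := h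
  exact ⟨c2, c1, G2, G1, r, h2, h1, h3.symm, h5, h4, h7, h6, h9, h8⟩

theorem RP.soft {p1 p2 : Ph} {K1 K2 : Set Ph} (h : RP M σ l F fl p1 p2 K1 K2) : soft p1 ↔ soft p2 := by
  obtain ⟨c1, c2, G1, G2, r, h1, h2, h3, h4, h5, h6, h7, h8, h9⟩ := h
  rw [h8.1, h9.1, h3.dn_iff]

theorem RP.left {p1 p2 : Ph} {K1 K2 : Set Ph} (h : RP M σ l F fl p1 p2 K1 K2) :
    core M p1 ⊆ K1 ∧ K1 ⊆ SS M p1 ∧ ∀ i, p1 = sf i → i ≤ M := by
  obtain ⟨c1, c2, G1, G2, r, h1, h2, h3, h4, h5, h6, h7, h8, h9⟩ := h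
  exact h8.2

/-- a difference between bisimilar configurations gives a pair -/
theorem lstep {c1 c2 : List (Term L)} {G1 G2 : Set Ph} (h1 : PR σ l c1 ∨ c1 = [l]) (h2 : PR σ l c2 ∨ c2 = [l])
    (hB : LB (dS σ) c1 c2) (t1 : TyL (dS σ) (TS M σ) c1 F fl G1) (t2 : TyL (dS σ) (TS M σ) c2 F fl G2) {g : Ph}
    (hg1 : g ∈ G1) (hg2 : g ∉ G2) : ∃ g2 ∈ G2, ∃ K1 K2, RP M σ l F fl g g2 K1 K2 := by
  have hpr : ∀ {c c' : List (Term L)} {z : L}, PR σ l c ∨ c = [l] → Cf (dS σ) c z c' → PR σ l c' := by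
    rintro c c' z (h | rfl) hc
    · exact h.next hc
    · exact ⟨z, LS.of_cf hc⟩
  rcases SR1L t1 hg1 with ⟨z, w, G1', Hz, h3, h4, h5, h6⟩ | ⟨h3, h4⟩
  · obtain ⟨w2, h7, h8⟩ := hB.fwd h3
    obtain ⟨G2', Hz2, h9, h10, h11⟩ := SR2L t2 h7
    obtain ⟨a, r, K1, _, h12, h13, ⟨k, v1, rfl⟩, h14⟩ := SR1 (show Ty (dF A) (TB A M) (σ z) _ _ _ from h5) h6
    obtain rfl : g = k := h14
    obtain ⟨K2, _, h15, ⟨g2, v2, rfl⟩, h16⟩ := SR2 (show Ty (dF A) (TB A M) (σ z) _ _ _ from h10) h12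
    exact ⟨g2, h11 (h16 rfl), K1, K2, w, w2, G1', G2', r, hpr h1 h3, hpr h2 h7, h8, h4, h9, h13, h15, v1, v2⟩
  · exact absurd (TyL_sub t2 (hB.dn_iff.1 h3) h4) hg2

theorem RP.step {p1 p2 : Ph} {K1 K2 : Set Ph} (h : RP M σ l F fl p1 p2 K1 K2) {g : Ph} (hg1 : g ∈ K1) (hg2 : g ∉ K2) :
    ∃ g2 ∈ K2, ∃ K1' K2', RP M σ l F fl g g2 K1' K2' := by
  obtain ⟨c1, c2, G1, G2, r, h1, h2, h3, h4, h5, h6, h7, h8, h9⟩ := h
  rcases SR1L h6 hg1 with ⟨a, r', K1', _, h10, h11, ⟨k, v1, rfl⟩, h12⟩ | ⟨h10, h11⟩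
  · obtain rfl : g = k := h12
    obtain ⟨K2', _, h13, ⟨g2, v2, rfl⟩, h14⟩ := SR2L h7 h10
    exact ⟨g2, h14 rfl, K1', K2', c1, c2, G1, G2, r', h1, h2, h3, h4, h5, h11, h13, v1, v2⟩
  · have h12 : G2 ⊆ K2 := TyL_sub h7 h10
    obtain ⟨g2, h13, h14⟩ := lstep (Or.inl h1) (Or.inl h2) h3 h4 h5 h11 (fun h => hg2 (h12 h))
    exact ⟨g2, h12 h13, h14⟩

/-- from a pair of hard configurations -/
theorem descend_hard (hM : 1 ≤ M) {K1 K2 : Set Ph} (h : RP M σ l F fl he hb K1 K2) :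
    ∃ K1' K2', RP M σ l F fl (sf 0) (sf M) K1' K2' := by
  have h1 : sf M ∈ K2 := h.symm.left.1 rfl
  have h2 : sf M ∉ K1 := by
    intro h2
    have h3 : sf M = sf 0 := h.left.2.1 h2
    simp only [sf.injEq] at h3
    omega
  obtain ⟨g2, h3, K1', K2', h4⟩ := h.symm.step h1 h2
  obtain rfl : g2 = sf 0 := h.left.2.1 h3
  exact ⟨K2', K1', h4.symm⟩

theorem descend_soft (hM : 1 ≤ M) {j i : ℕ} (hij : i < j) {K1 K2 : Set Ph} (h : RP M σ l F fl (sf i) (sf j) K1 K2) :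
    ∃ K1' K2', RP M σ l F fl (sf 0) (sf M) K1' K2' := by
  induction j using Nat.strong_induction_on generalizing i K1 K2 with
  | _ j ih =>
    rcases j with _ | _ | j
    · omega
    · obtain rfl : i = 0 := by omega
      have h1 : he ∈ K2 := h.symm.left.1 rfl
      have h0 := h.left.2.1
      have h2 : he ∉ K1 := fun h2 => by
        have := h0 h2
        simp [SS, RR, core] at this
      obtain ⟨g2, h3, K1', K2', h4⟩ := h.symm.step h1 h2
      have h5 := h0 h3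
      have h6 : ¬ soft g2 := fun h6 => h4.soft.2 h6
      have h7 : g2 = hb := by
        rcases h5 with (h5 | h5) | h5
        · rw [h5] at h6; exact absurd trivial h6
        · exact h5
        · exact absurd h5 (by simp [core])
      subst h7
      exact descend_hard hM h4
    · have h1 : sf (j + 1) ∈ K2 := h.symm.left.1 rfl
      have h0 := h.left.2.1
      have h2 : sf (j + 1) ∉ K1 := by
        intro h2
        rcases h0 h2 with h3 | h3
        · simp [RR] at h3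
        · rcases i with _ | _ | i
          · simp [core] at h3
          · simp [core] at h3
          · have : sf (j + 1) = sf (i + 1) := h3
            simp only [sf.injEq] at this
            omega
      obtain ⟨g2, h3, K1', K2', h4⟩ := h.symm.step h1 h2
      obtain ⟨x, rfl⟩ := sf_of_soft (h4.soft.1 trivial)
      have h5 : x < j + 1 := by
        rcases h0 h3 with h5 | h5
        · simp only [RR, Set.mem_insert_iff, Set.mem_singleton_iff, sf.injEq, reduceCtorEq, or_false] at h5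
          omega
        · rcases i with _ | _ | i
          · simp [core] at h5
          · simp [core] at h5
          · have : sf x = sf (i + 1) := h5
            simp only [sf.injEq] at this
            omega
      exact ih (j + 1) (by omega) h5 h4.symm

theorem descend (hM : 1 ≤ M) {p1 p2 : Ph} (hne : p1 ≠ p2) {K1 K2 : Set Ph} (h : RP M σ l F fl p1 p2 K1 K2) :
    ∃ K1' K2', RP M σ l F fl (sf 0) (sf M) K1' K2' := by
  have hs := h.soft
  cases p1 with
  | sf i =>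
    obtain ⟨j, rfl⟩ := sf_of_soft (hs.1 trivial)
    rcases lt_trichotomy i j with h1 | rfl | h1
    · exact descend_soft hM h1 h
    · exact absurd rfl hne
    · exact descend_soft hM h1 h.symm
  | he =>
    cases p2 with
    | sf i => exact absurd (hs.2 trivial) id
    | he => exact absurd rfl hne
    | hb => exact descend_hard hM h
  | hb =>
    cases p2 with
    | sf i => exact absurd (hs.2 trivial) id
    | hb => exact absurd rfl hne
    | he => exact descend_hard hM h.symm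

theorem climb (hM : 1 ≤ M) {K1 K2 : Set Ph} (h : RP M σ l F fl (sf 0) (sf M) K1 K2) {j : ℕ} (hj : 1 ≤ j) (hjM : j ≤ M) :
    ∃ K1' K2', RP M σ l F fl (sf 0) (sf j) K1' K2' := by
  obtain ⟨d, rfl⟩ : ∃ d, M = j + d := ⟨M - j, by omega⟩
  -- generalise the top index
  suffices H : ∀ d' ≤ d, ∃ K1' K2', RP (j + d) σ l F fl (sf 0) (sf (j + (d - d'))) K1' K2' by
    have := H d le_rfl
    simpa using this
  intro d'
  induction d' with
  | zero => intro _; exact ⟨K1, K2, h⟩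
  | succ d' ih =>
    intro hd
    obtain ⟨K1', K2', h1⟩ := ih (by omega)
    obtain ⟨m, hm⟩ : ∃ m, j + (d - d') = m + 2 := ⟨j + (d - d') - 2, by omega⟩
    rw [hm] at h1
    have e : j + (d - (d' + 1)) = m + 1 := by omega
    rw [e]
    have h2 : sf (m + 1) ∈ K2' := h1.symm.left.1 rfl
    have h0 : K1' ⊆ RR := by
      have := h1.left.2.1
      simpa [SS, core] using this
    have h3 : sf (m + 1) ∉ K1' := fun h3 => by
      have := h0 h3
      simp [RR] at this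
    obtain ⟨g2, h4, K3, K4, h5⟩ := h1.symm.step h2 h3
    obtain ⟨x, rfl⟩ := sf_of_soft (h5.soft.1 trivial)
    have h6 := h0 h4
    simp only [RR, Set.mem_insert_iff, Set.mem_singleton_iff, sf.injEq, reduceCtorEq, or_false] at h6
    subst h6
    exact ⟨K4, K3, h5.symm⟩

/-- a pair of soft configurations gives a properly reachable configuration with a given type -/
theorem RP.conf (hM : 2 ≤ M) {j : ℕ} {K1 K2 : Set Ph} (h : RP M σ l F fl (sf 0) (sf (j + 1)) K1 K2) :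
    ∃ c G, PR σ l c ∧ TyL (dS σ) (TS M σ) c F fl G ∧ Val M (sf (j + 1)) G True := by
  obtain ⟨c1, c2, G1, G2, r, h1, h2, h3, h4, h5, h6, h7, h8, h9⟩ := h
  have e : (dnL (dS σ) c1 ∧ fl) = (dnL (dS σ) c2 ∧ fl) := by rw [h3.dn_iff]
  have hf := h9.1.1 trivial
  rw [e] at h6 h8
  have h10 := IA hM h6 h7 hf.1 h8 h9
  rw [TyL_inactive h7 hf.1 h10] at h9
  refine ⟨c2, G2, h2, h5, ?_⟩
  have e2 : (dnL (dF A) r ∧ dnL (dS σ) c2 ∧ fl) = True := eq_true hf
  rw [e2] at h9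
  exact h9

theorem TSfun (hM : 1 ≤ M) {D : List (Term L)} {F G G' : Set Ph} {fl : Prop} (h : TyL (dS σ) (TS M σ) D F fl G)
    (h' : TyL (dS σ) (TS M σ) D F fl G') : G = G' :=
  TyL_fun hM (TyL_inst.2 h) (TyL_inst.2 h')

/-- bisimilar properly reachable configurations have the same type, or there are many configurations -/
theorem UQ (hM : 2 ≤ M) {c1 c2 : List (Term L)} {G1 G2 : Set Ph} (h1 : PR σ l c1 ∨ c1 = [l])
    (h2 : PR σ l c2 ∨ c2 = [l]) (hB : LB (dS σ) c1 c2) (t1 : TyL (dS σ) (TS M σ) c1 F fl G1)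
    (t2 : TyL (dS σ) (TS M σ) c2 F fl G2) :
    G1 = G2 ∨ ∃ f : Fin M → List (Term L), Function.Injective f ∧ ∀ j, PR σ l (f j) := by
  by_cases hG : G1 = G2
  · exact Or.inl hG
  right
  have h3 : ∃ p1 p2 K1 K2, p1 ≠ p2 ∧ RP M σ l F fl p1 p2 K1 K2 := by
    have : ¬ (G1 ⊆ G2 ∧ G2 ⊆ G1) := fun h => hG (Set.Subset.antisymm h.1 h.2)
    rw [not_and_or] at this
    rcases this with h | h
    · obtain ⟨g, hg1, hg2⟩ := Set.not_subset.1 h
      obtain ⟨g2, h3, K1, K2, h4⟩ := lstep h1 h2 hB t1 t2 hg1 hg2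
      exact ⟨g, g2, K1, K2, fun e => hg2 (e ▸ h3), h4⟩
    · obtain ⟨g, hg1, hg2⟩ := Set.not_subset.1 h
      obtain ⟨g2, h3, K1, K2, h4⟩ := lstep h2 h1 hB.symm t2 t1 hg1 hg2
      exact ⟨g, g2, K1, K2, fun e => hg2 (e ▸ h3), h4⟩
  obtain ⟨p1, p2, K1, K2, hne, h4⟩ := h3
  obtain ⟨K3, K4, h5⟩ := descend (by omega) hne h4
  have h6 : ∀ j : Fin M, ∃ c, PR σ l c ∧ ∃ G, TyL (dS σ) (TS M σ) c F fl G ∧ Val M (sf (j.1 + 1)) G True := by
    intro j
    obtain ⟨K5, K6, h7⟩ := climb (by omega) h5 (j := j.1 + 1) (by omega) (by omega)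
    obtain ⟨c, G, h8, h9, h10⟩ := h7.conf hM
    exact ⟨c, h8, G, h9, h10⟩
  choose f hf1 G hf2 hf3 using h6
  refine ⟨f, ?_, hf1⟩
  intro i j hij
  have h7 := hf2 i
  rw [hij] at h7
  have h8 := TSfun (by omega) h7 (hf2 j)
  have h9 := hf3 i
  rw [h8] at h9
  have h10 := Val_fun (by omega) h9 (hf3 j) rfl
  simp only [sf.injEq] at h10
  exact Fin.ext (by omega)

end Pairs

end Pool.Agent.Helper501.Eps

namespace Pool.Agent.Helper501.Eps

open Relation Term Ph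

section Count

variable {L : Type*} {da : L → Prop}

/-- a list containing all configurations reachable from a term -/
def RC : Term L → List (List (Term L))
  | eps => [[eps]]
  | atom a => [[atom a], []]
  | plus s t => [plus s t] :: (RC s ++ RC t)
  | seq s t => [seq s t] :: ((RC s).map (fun v => v ++ [t]) ++ RC t)
  | kstar s t => [kstar s t] :: ((RC s).map (fun v => v ++ [kstar s t]) ++ RC t)

theorem self_mem_RC (t : Term L) : [t] ∈ RC t := by cases t <;> simp [RC]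

theorem RC_step {t : Term L} {v w : List (Term L)} {a : L} (hv : v ∈ RC t) (hc : Cf da v a w) : w ∈ RC t := by
  induction t generalizing v w with
  | eps =>
    simp only [RC, List.mem_singleton] at hv
    subst hv
    exact absurd (cf_single.1 hc) (by simp [St])
  | atom b =>
    simp only [RC, List.mem_cons, List.not_mem_nil, or_false] at hv
    rcases hv with rfl | rfl
    · rw [(cf_single.1 hc).2]; simp [RC]
    · exact absurd hc cf_nil
  | plus s t ihs iht =>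
    simp only [RC, List.mem_cons, List.mem_append] at hv ⊢
    right
    rcases hv with rfl | hv | hv
    · rcases cf_single.1 hc with h | h
      · exact Or.inl (ihs (self_mem_RC s) (cf_single.2 h))
      · exact Or.inr (iht (self_mem_RC t) (cf_single.2 h))
    · exact Or.inl (ihs hv hc)
    · exact Or.inr (iht hv hc)
  | seq s t ihs iht =>
    simp only [RC, List.mem_cons, List.mem_append, List.mem_map] at hv ⊢
    right
    rcases hv with rfl | ⟨u, hu, rfl⟩ | hv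
    · rcases cf_append.1 (show Cf da ([s] ++ [t]) a w from cf_seq.1 hc) with ⟨D1, h, rfl⟩ | ⟨_, h⟩
      · exact Or.inl ⟨D1, ihs (self_mem_RC s) h, rfl⟩
      · exact Or.inr (iht (self_mem_RC t) h)
    · rcases cf_append.1 hc with ⟨D1, h, rfl⟩ | ⟨_, h⟩
      · exact Or.inl ⟨D1, ihs hu h, rfl⟩
      · exact Or.inr (iht (self_mem_RC t) h)
    · exact Or.inr (iht hv hc)
  | kstar s t ihs iht =>
    simp only [RC, List.mem_cons, List.mem_append, List.mem_map] at hv ⊢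
    right
    rcases hv with rfl | ⟨u, hu, rfl⟩ | hv
    · rcases cf_single.1 hc with ⟨v, h, rfl⟩ | h
      · exact Or.inl ⟨v, ihs (self_mem_RC s) (cf_single.2 h), rfl⟩
      · exact Or.inr (iht (self_mem_RC t) (cf_single.2 h))
    · rcases cf_append.1 hc with ⟨D1, h, rfl⟩ | ⟨_, h⟩
      · exact Or.inl ⟨D1, ihs hu h, rfl⟩
      · rcases cf_single.1 h with ⟨v, h2, rfl⟩ | h2
        · exact Or.inl ⟨v, ihs (self_mem_RC s) (cf_single.2 h2), rfl⟩
        · exact Or.inr (iht (self_mem_RC t) (cf_single.2 h2))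
    · exact Or.inr (iht hv hc)

theorem RC_lr {t : Term L} {v w : List (Term L)} (hv : v ∈ RC t) (hr : LR da v w) : w ∈ RC t := by
  induction hr with
  | refl => exact hv
  | tail _ h ih =>
    obtain ⟨a, h⟩ := h
    exact RC_step ih h

theorem PR_RC {A : Type*} {σ : L → Term A} {l : Term L} {c : List (Term L)} (h : PR σ l c) : c ∈ RC l := by
  obtain ⟨z, h⟩ := h
  exact RC_lr (self_mem_RC l) h.lr

/-- bisimilar configurations of a small term have the same type -/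
theorem UQ' {A : Type*} {M : ℕ} {σ : L → Term A} {l : Term L} {F : Set Ph} {fl : Prop} (hM : 2 ≤ M)
    (hl : (RC l).length < M) {c1 c2 : List (Term L)} {G1 G2 : Set Ph} (h1 : PR σ l c1 ∨ c1 = [l])
    (h2 : PR σ l c2 ∨ c2 = [l]) (hB : LB (dS σ) c1 c2) (t1 : TyL (dS σ) (TS M σ) c1 F fl G1)
    (t2 : TyL (dS σ) (TS M σ) c2 F fl G2) : G1 = G2 := by
  rcases UQ hM h1 h2 hB t1 t2 with h | ⟨f, hf, hf2⟩
  · exact h
  · exfalso
    have h3 : (List.ofFn f).Nodup := List.nodup_ofFn.2 hf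
    have h4 : List.ofFn f ⊆ RC l := by
      intro c hc
      rw [List.mem_ofFn] at hc
      obtain ⟨i, rfl⟩ := hc
      exact PR_RC (hf2 i)
    have h5 := (h3.subperm h4).length_le
    rw [List.length_ofFn] at h5
    omega

end Count

section Skip

variable {L : Type*} {da : L → Prop}

theorem dn_mono {t : Term L} (h : dn (dF L) t) : dn da t := by
  induction t with
  | eps => trivial
  | atom a => exact absurd h id
  | plus s t ihs iht => exact h.imp ihs iht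
  | seq s t ihs iht => exact ⟨ihs h.1, iht h.2⟩
  | kstar s t ihs iht => exact iht h

theorem dnL_mono {D : List (Term L)} (h : dnL (dF L) D) : dnL da D := fun t ht => dn_mono (h t ht)

theorem st_mono {t : Term L} {z : L} {w : List (Term L)} (h : St (dF L) t z w) : St da t z w := by
  induction t generalizing w with
  | eps => exact h
  | atom a => exact h
  | plus s t ihs iht => exact h.imp ihs iht
  | seq s t ihs iht =>
    rcases h with ⟨v, h, rfl⟩ | ⟨h1, h2⟩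
    · exact Or.inl ⟨v, ihs h, rfl⟩
    · exact Or.inr ⟨dn_mono h1, iht h2⟩
  | kstar s t ihs iht =>
    rcases h with ⟨v, h, rfl⟩ | h
    · exact Or.inl ⟨v, ihs h, rfl⟩
    · exact Or.inr (iht h)

theorem cf_mono {D : List (Term L)} {z : L} {w : List (Term L)} (h : Cf (dF L) D z w) : Cf da D z w := by
  induction D with
  | nil => exact absurd h cf_nil
  | cons t R ih =>
    rcases h with ⟨v, h, rfl⟩ | ⟨h1, h2⟩
    · exact Or.inl ⟨v, st_mono h, rfl⟩
    · exact Or.inr ⟨dn_mono h1, ih h2⟩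

theorem st_comp {t : Term L} {y : L} {v : List (Term L)} (h : St (dF L) t y v) (hy : da y) :
    (dnL da v → dn da t) ∧ (∀ z w, Cf da v z w → St da t z w) := by
  induction t generalizing v with
  | eps => exact absurd h id
  | atom a =>
    obtain ⟨rfl, rfl⟩ := h
    exact ⟨fun _ => hy, fun z w hc => absurd hc cf_nil⟩
  | plus s t ihs iht =>
    rcases h with h | h
    · exact ⟨fun h' => Or.inl ((ihs h).1 h'), fun z w hc => Or.inl ((ihs h).2 z w hc)⟩
    · exact ⟨fun h' => Or.inr ((iht h).1 h'), fun z w hc => Or.inr ((iht h).2 z w hc)⟩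
  | seq s t ihs iht =>
    rcases h with ⟨v1, h, rfl⟩ | ⟨h0, h⟩
    · obtain ⟨h1, h2⟩ := ihs h
      refine ⟨fun h' => ?_, fun z w hc => ?_⟩
      · rw [dnL_append, dnL_single] at h'
        exact ⟨h1 h'.1, h'.2⟩
      · rcases cf_append.1 hc with ⟨D1, h3, rfl⟩ | ⟨h3, h4⟩
        · exact Or.inl ⟨D1, h2 _ _ h3, rfl⟩
        · exact Or.inr ⟨h1 h3, cf_single.1 h4⟩
    · obtain ⟨h1, h2⟩ := iht h
      exact ⟨fun h' => ⟨dn_mono h0, h1 h'⟩, fun z w hc => Or.inr ⟨dn_mono h0, h2 z w hc⟩⟩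
  | kstar s t ihs iht =>
    rcases h with ⟨v1, h, rfl⟩ | h
    · obtain ⟨h1, h2⟩ := ihs h
      refine ⟨fun h' => ?_, fun z w hc => ?_⟩
      · rw [dnL_append, dnL_single] at h'
        exact h'.2
      · rcases cf_append.1 hc with ⟨D1, h3, rfl⟩ | ⟨h3, h4⟩
        · exact Or.inl ⟨D1, h2 _ _ h3, rfl⟩
        · exact cf_single.1 h4
    · obtain ⟨h1, h2⟩ := iht h
      exact ⟨fun h' => h1 h', fun z w hc => Or.inr (h2 z w hc)⟩

theorem cf_comp {D : List (Term L)} {y : L} {D' : List (Term L)} (h : Cf (dF L) D y D') (hy : da y) :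
    (dnL da D' → dnL da D) ∧ (∀ z w, Cf da D' z w → Cf da D z w) := by
  induction D with
  | nil => exact absurd h cf_nil
  | cons t R ih =>
    rcases h with ⟨v, h, rfl⟩ | ⟨h0, h⟩
    · obtain ⟨h1, h2⟩ := st_comp h hy
      refine ⟨fun h' => ?_, fun z w hc => ?_⟩
      · rw [dnL_append] at h'
        exact dnL_cons.2 ⟨h1 h'.1, h'.2⟩
      · rcases cf_append.1 hc with ⟨D1, h3, rfl⟩ | ⟨h3, h4⟩
        · exact Or.inl ⟨D1, h2 _ _ h3, rfl⟩
        · exact Or.inr ⟨h1 h3, h4⟩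
    · obtain ⟨h1, h2⟩ := ih h
      exact ⟨fun h' => dnL_cons.2 ⟨dn_mono h0, h1 h'⟩, fun z w hc => Or.inr ⟨dn_mono h0, h2 z w hc⟩⟩

/-- skipping steps by atoms in `da` -/
def Sk (da : L → Prop) : List (Term L) → List (Term L) → Prop :=
  ReflTransGen (fun D D' => ∃ z, da z ∧ Cf (dF L) D z D')

def SkD (da : L → Prop) (D : List (Term L)) : Prop := ∃ x, Sk da D x ∧ dnL (dF L) x

def SkC (da : L → Prop) (D : List (Term L)) (z : L) (c : List (Term L)) : Prop := ∃ x, Sk da D x ∧ Cf (dF L) x z c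

theorem Sk.back {D x : List (Term L)} (h : Sk da D x) :
    (dnL da x → dnL da D) ∧ (∀ z w, Cf da x z w → Cf da D z w) := by
  induction h with
  | refl => exact ⟨id, fun _ _ => id⟩
  | tail _ h ih =>
    obtain ⟨y, hy, h⟩ := h
    obtain ⟨h1, h2⟩ := cf_comp h hy
    exact ⟨fun h' => ih.1 (h1 h'), fun z w h' => ih.2 z w (h2 z w h')⟩

theorem SkD.mono {D1 D2 : List (Term L)} (h1 : ∀ a w, Cf (dF L) D1 a w → Cf (dF L) D2 a w)
    (h2 : dnL (dF L) D1 → dnL (dF L) D2) (h : SkD da D1) : SkD da D2 := by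
  obtain ⟨x, h3, h4⟩ := h
  rcases ReflTransGen.cases_head h3 with rfl | ⟨E1, ⟨a, ha, h5⟩, h6⟩
  · exact ⟨D2, ReflTransGen.refl, h2 h4⟩
  · exact ⟨x, ReflTransGen.head ⟨a, ha, h1 _ _ h5⟩ h6, h4⟩

theorem SkC.mono {D1 D2 : List (Term L)} (h1 : ∀ a w, Cf (dF L) D1 a w → Cf (dF L) D2 a w) {z : L} {c : List (Term L)}
    (h : SkC da D1 z c) : SkC da D2 z c := by
  obtain ⟨x, h3, h4⟩ := h
  rcases ReflTransGen.cases_head h3 with rfl | ⟨E1, ⟨a, ha, h5⟩, h6⟩
  · exact ⟨D2, ReflTransGen.refl, h1 _ _ h4⟩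
  · exact ⟨x, ReflTransGen.head ⟨a, ha, h1 _ _ h5⟩ h6, h4⟩

theorem Sk.append {D x : List (Term L)} (h : Sk da D x) (R : List (Term L)) : Sk da (D ++ R) (x ++ R) := by
  induction h with
  | refl => exact ReflTransGen.refl
  | tail _ h ih =>
    obtain ⟨y, hy, h⟩ := h
    exact ih.tail ⟨y, hy, cf_append.2 (Or.inl ⟨_, h, rfl⟩)⟩

theorem SkD.append {D1 D2 : List (Term L)} (h1 : SkD da D1) (h2 : SkD da D2) : SkD da (D1 ++ D2) := by
  obtain ⟨x, h3, h4⟩ := h1
  obtain ⟨y, h5, h6⟩ := SkD.mono (D2 := x ++ D2) (fun a w hw => cf_append.2 (Or.inr ⟨h4, hw⟩))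
    (fun hw => dnL_append.2 ⟨h4, hw⟩) h2
  exact ⟨y, (h3.append D2).trans h5, h6⟩

theorem SkC.append_left {D1 D2 c : List (Term L)} {z : L} (h : SkC da D1 z c) : SkC da (D1 ++ D2) z (c ++ D2) := by
  obtain ⟨x, h3, h4⟩ := h
  exact ⟨x ++ D2, h3.append D2, cf_append.2 (Or.inl ⟨c, h4, rfl⟩)⟩

theorem SkC.append_right {D1 D2 c : List (Term L)} {z : L} (h1 : SkD da D1) (h2 : SkC da D2 z c) :
    SkC da (D1 ++ D2) z c := by
  obtain ⟨x, h3, h4⟩ := h1
  obtain ⟨y, h5, h6⟩ := SkC.mono (D2 := x ++ D2) (fun a w hw => cf_append.2 (Or.inr ⟨h4, hw⟩)) h2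
  exact ⟨y, (h3.append D2).trans h5, h6⟩

theorem SkD_of_dn {t : Term L} (h : dn da t) : SkD da [t] := by
  induction t with
  | eps => exact ⟨[eps], ReflTransGen.refl, dnL_single.2 trivial⟩
  | atom a => exact ⟨[], ReflTransGen.single ⟨a, h, cf_single.2 ⟨rfl, rfl⟩⟩, dnL_nil⟩
  | plus s t ihs iht =>
    rcases h with h | h
    · refine (ihs h).mono (fun a w hw => ?_) (fun hw => ?_)
      · rw [cf_single] at *; exact Or.inl hw
      · rw [dnL_single] at *; exact Or.inl hw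
    · refine (iht h).mono (fun a w hw => ?_) (fun hw => ?_)
      · rw [cf_single] at *; exact Or.inr hw
      · rw [dnL_single] at *; exact Or.inr hw
  | seq s t ihs iht =>
    refine SkD.mono (D1 := [s] ++ [t]) (fun a w hw => cf_seq.2 hw) (fun hw => ?_) ((ihs h.1).append (iht h.2))
    rw [dnL_append, dnL_single, dnL_single] at hw
    exact dnL_single.2 hw
  | kstar s t ihs iht =>
    refine (iht h).mono (fun a w hw => ?_) (fun hw => ?_)
    · rw [cf_single] at *; exact Or.inr hw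
    · rw [dnL_single] at *; exact hw

theorem SkD_of_dnL {D : List (Term L)} (h : dnL da D) : SkD da D := by
  induction D with
  | nil => exact ⟨[], ReflTransGen.refl, dnL_nil⟩
  | cons t R ih =>
    rw [dnL_cons] at h
    exact SkD.append (D1 := [t]) (SkD_of_dn h.1) (ih h.2)

theorem SkC_of_st {t : Term L} {z : L} {w : List (Term L)} (h : St da t z w) : SkC da [t] z w := by
  induction t generalizing w with
  | eps => exact absurd h id
  | atom a => exact ⟨[atom a], ReflTransGen.refl, cf_single.2 h⟩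
  | plus s t ihs iht =>
    rcases h with h | h
    · refine (ihs h).mono (fun a w hw => ?_)
      rw [cf_single] at *; exact Or.inl hw
    · refine (iht h).mono (fun a w hw => ?_)
      rw [cf_single] at *; exact Or.inr hw
  | seq s t ihs iht =>
    refine SkC.mono (D1 := [s] ++ [t]) (fun a w hw => cf_seq.2 hw) ?_
    rcases h with ⟨v, h, rfl⟩ | ⟨h0, h⟩
    · exact (ihs h).append_left
    · exact SkC.append_right (SkD_of_dn h0) (iht h)
  | kstar s t ihs iht =>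
    rcases h with ⟨v, h, rfl⟩ | h
    · refine SkC.mono (D1 := [s] ++ [kstar s t]) (fun a w hw => ?_) (ihs h).append_left
      rcases cf_append.1 hw with ⟨D1, h1, rfl⟩ | ⟨_, h1⟩
      · exact cf_single.2 (Or.inl ⟨D1, cf_single.1 h1, rfl⟩)
      · exact h1
    · refine (iht h).mono (fun a w hw => ?_)
      rw [cf_single] at *; exact Or.inr hw

theorem SkC_of_cf {D : List (Term L)} {z : L} {w : List (Term L)} (h : Cf da D z w) : SkC da D z w := by
  induction D with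
  | nil => exact absurd h cf_nil
  | cons t R ih =>
    rcases h with ⟨v, h, rfl⟩ | ⟨h0, h⟩
    · exact SkC.append_left (D1 := [t]) (SkC_of_st h)
    · exact SkC.append_right (D1 := [t]) (SkD_of_dn h0) (ih h)

theorem LB.sk {D D' x : List (Term L)} (h : LB (dF L) D D') (hs : Sk da D x) : ∃ x', Sk da D' x' ∧ LB (dF L) x x' := by
  induction hs with
  | refl => exact ⟨D', ReflTransGen.refl, h⟩
  | tail _ h1 ih =>
    obtain ⟨E', h2, h3⟩ := ih
    obtain ⟨a, ha, h1⟩ := h1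
    obtain ⟨E2, h4, h5⟩ := h3.fwd h1
    exact ⟨E2, h2.tail ⟨a, ha, h4⟩, h5⟩

theorem LB.skD {D D' : List (Term L)} (h : LB (dF L) D D') (hs : dnL da D) : dnL da D' := by
  obtain ⟨x, h1, h2⟩ := SkD_of_dnL hs
  obtain ⟨x', h3, h4⟩ := h.sk h1
  exact h3.back.1 (dnL_mono (h4.dn_iff.1 h2))

theorem LB.skC {D D' : List (Term L)} (h : LB (dF L) D D') {z : L} {c : List (Term L)} (hs : Cf da D z c) :
    ∃ c', Cf da D' z c' ∧ LB (dF L) c c' := by
  obtain ⟨x, h1, h2⟩ := SkC_of_cf hs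
  obtain ⟨x', h3, h4⟩ := h.sk h1
  obtain ⟨c', h5, h6⟩ := h4.fwd h2
  exact ⟨c', h3.back.2 _ _ (cf_mono h5), h6⟩

/-- bisimilarity is preserved when some atoms become terminated -/
theorem LB.lift {D D' : List (Term L)} (h : LB (dF L) D D') (da : L → Prop) : LB da D D' := by
  refine ⟨fun x y => LB (dF L) x y, ⟨?_, ?_, ?_⟩, h⟩
  · intro D D' h
    exact ⟨fun h' => h.skD h', fun h' => h.symm.skD h'⟩
  · intro D D' a D1 h hc
    exact h.skC hc
  · intro D D' a D1 h hc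
    obtain ⟨c, h1, h2⟩ := h.symm.skC hc
    exact ⟨c, h1, h2.symm⟩

end Skip

end Pool.Agent.Helper501.Eps
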