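import Pool.Agent.Helper501.Eps.Pairs

namespace Pool.Agent.Helper501.Eps

open Relation Term Ph

section Transfer

variable {L A : Type*} {M : ℕ} {σ : L → Term A} {l l' : Term L} {F : Set Ph} {fl : Prop}

/-- the type of a configuration bisimilar to a properly reachable configuration of `l` -/
def G0 (M : ℕ) (σ : L → Term A) (l : Term L) (F : Set Ph) (fl : Prop) (c : List (Term L)) (G : Set Ph) : Prop :=
  ∃ d, PR σ l d ∧ LB (dS σ) d c ∧ TyL (dS σ) (TS M σ) d F fl G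

/-- all entered configurations are covered by `l` -/
def OK (σ : L → Term A) (l : Term L) (D : List (Term L)) : Prop :=
  ∀ z c, LS (dS σ) D z c → ∃ d, LS (dS σ) [l] z d ∧ LB (dS σ) d c

/-- `g` is the phase of a configuration entered by the first step of `z` before `c` -/
def PhZ (M : ℕ) (σ : L → Term A) (l : Term L) (F : Set Ph) (fl : Prop) (z : L) (c : List (Term L)) (g : Ph) : Prop :=
  ∃ G Hz, G0 M σ l F fl c G ∧ TS M σ z G (dnL (dS σ) c ∧ fl) Hz ∧ g ∈ Hz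

/-- phases of the successors by own steps -/
def Own (M : ℕ) (σ : L → Term A) (l : Term L) (F : Set Ph) (fl : Prop) (t : Term L) (R : List (Term L)) (g : Ph) : Prop :=
  ∃ z w, St (dS σ) t z w ∧ PhZ M σ l F fl z (w ++ R) g

/-- phases of all successors -/
def GG (M : ℕ) (σ : L → Term A) (l : Term L) (F : Set Ph) (fl : Prop) (D : List (Term L)) : Set Ph :=
  {g | (∃ z c, Cf (dS σ) D z c ∧ PhZ M σ l F fl z c g) ∨ (dnL (dS σ) D ∧ g ∈ F)}

theorem GG_nil : GG M σ l F fl [] = F := by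
  ext g
  simp only [GG, Set.mem_setOf_eq]
  constructor
  · rintro (⟨z, c, h, _⟩ | ⟨_, h⟩)
    · exact absurd h cf_nil
    · exact h
  · intro h
    exact Or.inr ⟨dnL_nil, h⟩

theorem GG_cons {t : Term L} {R : List (Term L)} :
    GG M σ l F fl (t :: R) = {g | Own M σ l F fl t R g} ∪ cut (dn (dS σ) t) (GG M σ l F fl R) := by
  ext g
  simp only [GG, Own, cut, Cf, dnL_cons, Set.mem_setOf_eq, Set.mem_union]
  constructor
  · rintro (⟨z, c, ⟨w, h1, rfl⟩ | ⟨h0, h1⟩, h2⟩ | ⟨⟨h0, h1⟩, h2⟩)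
    · exact Or.inl ⟨z, w, h1, h2⟩
    · exact Or.inr ⟨h0, Or.inl ⟨z, c, h1, h2⟩⟩
    · exact Or.inr ⟨h0, Or.inr ⟨h1, h2⟩⟩
  · rintro (⟨z, w, h1, h2⟩ | ⟨h0, ⟨z, c, h1, h2⟩ | ⟨h1, h2⟩⟩)
    · exact Or.inl ⟨z, w ++ R, Or.inl ⟨w, h1, rfl⟩, h2⟩
    · exact Or.inl ⟨z, c, Or.inr ⟨h0, h1⟩, h2⟩
    · exact Or.inr ⟨⟨h0, h1⟩, h2⟩

theorem Own_seq {s t : Term L} {R : List (Term L)} {g : Ph} :
    Own M σ l F fl (seq s t) R g ↔ Own M σ l F fl s (t :: R) g ∨ (dn (dS σ) s ∧ Own M σ l F fl t R g) := by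
  simp only [Own, St]
  constructor
  · rintro ⟨z, w, ⟨v, h1, rfl⟩ | ⟨h0, h1⟩, h2⟩
    · rw [List.append_assoc] at h2
      exact Or.inl ⟨z, v, h1, h2⟩
    · exact Or.inr ⟨h0, z, w, h1, h2⟩
  · rintro (⟨z, v, h1, h2⟩ | ⟨h0, z, w, h1, h2⟩)
    · refine ⟨z, v ++ [t], Or.inl ⟨v, h1, rfl⟩, ?_⟩
      rw [List.append_assoc]
      exact h2
    · exact ⟨z, w, Or.inr ⟨h0, h1⟩, h2⟩

theorem Own_kstar {s t : Term L} {R : List (Term L)} {g : Ph} :
    Own M σ l F fl (kstar s t) R g ↔ Own M σ l F fl s (kstar s t :: R) g ∨ Own M σ l F fl t R g := by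
  simp only [Own, St]
  constructor
  · rintro ⟨z, w, ⟨v, h1, rfl⟩ | h1, h2⟩
    · rw [List.append_assoc] at h2
      exact Or.inl ⟨z, v, h1, h2⟩
    · exact Or.inr ⟨z, w, h1, h2⟩
  · rintro (⟨z, v, h1, h2⟩ | ⟨z, w, h1, h2⟩)
    · refine ⟨z, v ++ [kstar s t], Or.inl ⟨v, h1, rfl⟩, ?_⟩
      rw [List.append_assoc]
      exact h2
    · exact ⟨z, w, Or.inr h1, h2⟩

theorem Own_plus {s t : Term L} {R : List (Term L)} {g : Ph} :
    Own M σ l F fl (plus s t) R g ↔ Own M σ l F fl s R g ∨ Own M σ l F fl t R g := by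
  simp only [Own, St]
  constructor
  · rintro ⟨z, w, h1 | h1, h2⟩
    · exact Or.inl ⟨z, w, h1, h2⟩
    · exact Or.inr ⟨z, w, h1, h2⟩
  · rintro (⟨z, w, h1, h2⟩ | ⟨z, w, h1, h2⟩)
    · exact ⟨z, w, Or.inl h1, h2⟩
    · exact ⟨z, w, Or.inr h1, h2⟩

theorem TS_fun (hM : 1 ≤ M) {z : L} {G H H' : Set Ph} {f : Prop} (h : TS M σ z G f H) (h' : TS M σ z G f H') : H = H' :=
  V hM h h' rfl

/-- the type of an entered configuration is the set of phases of its successors -/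
theorem GG_eq (hM : 2 ≤ M) (hl : (RC l).length < M) {c : List (Term L)} {G : Set Ph} (h : G0 M σ l F fl c G) :
    GG M σ l F fl c = G := by
  obtain ⟨d, h1, h2, h3⟩ := h
  ext g
  constructor
  · rintro (⟨z, c', h4, G'', Hz'', ⟨d'', h5, h6, h7⟩, h8, h9⟩ | ⟨h4, h5⟩)
    · obtain ⟨w, h10, h11⟩ := h2.bwd h4
      obtain ⟨G', Hz, h12, h13, h14⟩ := SR2L h3 h10
      obtain rfl := UQ' hM hl (Or.inl (h1.next h10)) (Or.inl h5) (h11.trans h6.symm) h12 h7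
      have e : (dnL (dS σ) w ∧ fl) = (dnL (dS σ) c' ∧ fl) := by rw [h11.dn_iff]
      rw [e] at h13
      rw [TS_fun (by omega) h8 h13] at h9
      exact h14 h9
    · exact TyL_sub h3 (h2.dn_iff.2 h4) h5
  · intro hg
    rcases SR1L h3 hg with ⟨z, w, G', Hz, h4, h5, h6, h7⟩ | ⟨h4, h5⟩
    · obtain ⟨c', h8, h9⟩ := h2.fwd h4
      have e : (dnL (dS σ) w ∧ fl) = (dnL (dS σ) c' ∧ fl) := by rw [h9.dn_iff]
      rw [e] at h6
      exact Or.inl ⟨z, c', h8, G', Hz, ⟨w, h1.next h4, h9, h5⟩, h6, h7⟩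
    · exact Or.inr ⟨h2.dn_iff.1 h4, h5⟩

theorem OK.mono {D1 D2 : List (Term L)} (h1 : ∀ a w, Cf (dS σ) D1 a w → Cf (dS σ) D2 a w) (h : OK σ l D2) :
    OK σ l D1 :=
  fun z c hc => h z c (hc.mono_head h1)

theorem OK.tail {t : Term L} {R : List (Term L)} (h : OK σ l (t :: R)) : OK σ l R :=
  fun z c hc => h z c hc.skip

/-- from covered configurations to types -/
theorem lemQ (hM : 2 ≤ M) (hl : (RC l).length < M) {Gl : Set Ph} (hT : TyL (dS σ) (TS M σ) [l] F fl Gl)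
    (t : Term L) (R : List (Term L)) (hOK : OK σ l (t :: R)) :
    ∃ H, Ty (dS σ) (TS M σ) t (GG M σ l F fl R) (dnL (dS σ) R ∧ fl) H ∧ ∀ g, g ∈ H ↔ Own M σ l F fl t R g := by
  induction t generalizing R with
  | eps =>
    refine ⟨∅, rfl, fun g => ?_⟩
    constructor
    · intro h; exact absurd h (by simp)
    · rintro ⟨z, w, h, _⟩; exact absurd h id
  | atom z =>
    have h1 : Cf (dS σ) (atom z :: R) z R := Or.inl ⟨[], ⟨rfl, rfl⟩, rfl⟩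
    obtain ⟨d, ⟨E, h2, h3⟩, h4⟩ := hOK z R (LS.of_cf h1)
    obtain ⟨GE, h5⟩ := TyL_lr hT h2
    obtain ⟨G', Hz, h6, h7, _⟩ := SR2L h5 h3
    have hPR : PR σ l d := ⟨z, E, h2, h3⟩
    have h8 : G0 M σ l F fl R G' := ⟨d, hPR, h4, h6⟩
    have e : (dnL (dS σ) d ∧ fl) = (dnL (dS σ) R ∧ fl) := by rw [h4.dn_iff]
    rw [e] at h7
    rw [GG_eq hM hl h8]
    refine ⟨Hz, h7, fun g => ?_⟩
    constructor
    · intro hg
      exact ⟨z, [], ⟨rfl, rfl⟩, G', Hz, h8, h7, hg⟩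
    · rintro ⟨y, w, ⟨rfl, rfl⟩, G'', Hz'', ⟨d'', h9, h10, h11⟩, h12, h13⟩
      obtain rfl := UQ' hM hl (Or.inl h9) (Or.inl hPR) (h10.trans h4.symm) h11 h6
      rw [TS_fun (by omega) h7 h12]
      exact h13
  | plus s t ihs iht =>
    obtain ⟨H1, h1, h2⟩ := ihs R (hOK.mono (fun a w hw => by
      rcases hw with ⟨v, h, rfl⟩ | ⟨h0, h⟩
      · exact Or.inl ⟨v, Or.inl h, rfl⟩
      · exact Or.inr ⟨Or.inl h0, h⟩))
    obtain ⟨H2, h3, h4⟩ := iht R (hOK.mono (fun a w hw => by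
      rcases hw with ⟨v, h, rfl⟩ | ⟨h0, h⟩
      · exact Or.inl ⟨v, Or.inr h, rfl⟩
      · exact Or.inr ⟨Or.inr h0, h⟩))
    refine ⟨H1 ∪ H2, ⟨H1, H2, h1, h3, rfl⟩, fun g => ?_⟩
    rw [Own_plus, Set.mem_union, h2, h4]
  | seq s t ihs iht =>
    have h0 : OK σ l (s :: t :: R) := hOK.mono (fun a w hw => cf_seq.2 hw)
    obtain ⟨Ht, h1, h2⟩ := iht R h0.tail
    obtain ⟨Hs, h3, h4⟩ := ihs (t :: R) h0
    have e : {g | Own M σ l F fl t R g} = Ht := by ext g; exact (h2 g).symm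
    rw [GG_cons, e] at h3
    have e2 : (dnL (dS σ) (t :: R) ∧ fl) = (dn (dS σ) t ∧ dnL (dS σ) R ∧ fl) := by rw [dnL_cons, and_assoc]
    rw [e2] at h3
    refine ⟨Hs ∪ cut (dn (dS σ) s) Ht, ⟨Ht, Hs, h1, h3, rfl⟩, fun g => ?_⟩
    rw [Own_seq, Set.mem_union, h4]
    simp only [cut, Set.mem_setOf_eq, h2]
  | kstar s t ihs iht =>
    have h0 : OK σ l (t :: R) := hOK.mono (fun a w hw => by
      rcases hw with ⟨v, h, rfl⟩ | ⟨h0, h⟩
      · exact Or.inl ⟨v, Or.inr h, rfl⟩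
      · exact Or.inr ⟨h0, h⟩)
    have h0' : OK σ l (s :: kstar s t :: R) := hOK.mono (fun a w hw => by
      rcases hw with ⟨v, h, rfl⟩ | ⟨_, h⟩
      · exact Or.inl ⟨v ++ [kstar s t], Or.inl ⟨v, h, rfl⟩, by simp⟩
      · exact h)
    obtain ⟨Ht, h1, h2⟩ := iht R h0
    obtain ⟨Hs, h3, h4⟩ := ihs (kstar s t :: R) h0'
    have e : {g | Own M σ l F fl (kstar s t) R g} = Hs ∪ Ht := by
      ext g
      rw [Set.mem_setOf_eq, Own_kstar, Set.mem_union, h4, h2]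
    rw [GG_cons, e] at h3
    have e2 : (dnL (dS σ) (kstar s t :: R) ∧ fl) = (dn (dS σ) t ∧ dnL (dS σ) R ∧ fl) := by
      rw [dnL_cons, and_assoc]; rfl
    rw [e2] at h3
    refine ⟨Hs ∪ Ht, ⟨Ht, Hs, h1, h3, rfl⟩, fun g => ?_⟩
    rw [Own_kstar, Set.mem_union, h4, h2]

theorem transfer (hM : 2 ≤ M) (hl : (RC l).length < M) (hB : LB (dS σ) [l] [l']) {H : Set Ph}
    (hT : Ty (dS σ) (TS M σ) l F fl H) : Ty (dS σ) (TS M σ) l' F fl H := by
  have hT1 : TyL (dS σ) (TS M σ) [l] F fl (H ∪ cut (dn (dS σ) l) F) := TyL_single.2 ⟨H, hT, rfl⟩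
  have hOK : OK σ l [l'] := by
    intro z c hc
    obtain ⟨d, h1, h2⟩ := hB.symm.ls hc
    exact ⟨d, h1, h2.symm⟩
  obtain ⟨H', h1, h2⟩ := lemQ hM hl hT1 l' [] hOK
  rw [GG_nil] at h1
  have e : (dnL (dS σ) ([] : List (Term L)) ∧ fl) = fl := by simp [dnL_nil]
  rw [e] at h1
  suffices hH : H = H' by rw [hH]; exact h1
  ext g
  rw [h2]
  constructor
  · intro hg
    obtain ⟨z, w, G', Hz, h3, h4, h5, h6⟩ := SR1 hT hg
    obtain ⟨w', h7, h8⟩ := hB.fwd (cf_single.2 h3)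
    have e2 : (dnL (dS σ) w ∧ fl) = (dnL (dS σ) w' ∧ fl) := by rw [h8.dn_iff]
    rw [e2] at h5
    refine ⟨z, w', cf_single.1 h7, ?_⟩
    rw [List.append_nil]
    exact ⟨G', Hz, ⟨w, ⟨z, LS.of_cf (cf_single.2 h3)⟩, h8, h4⟩, h5, h6⟩
  · rintro ⟨z, w', h3, G'', Hz'', ⟨d'', h5, h6, h7⟩, h8, h9⟩
    rw [List.append_nil] at h6 h8
    obtain ⟨w, h10, h11⟩ := hB.bwd (cf_single.2 h3)
    obtain ⟨G', Hz, h12, h13, h14⟩ := SR2 hT (cf_single.1 h10)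
    obtain rfl := UQ' hM hl (Or.inl ⟨z, LS.of_cf h10⟩) (Or.inl h5) (h11.trans h6.symm) h12 h7
    have e2 : (dnL (dS σ) w ∧ fl) = (dnL (dS σ) w' ∧ fl) := by rw [h11.dn_iff]
    rw [e2] at h13
    rw [TS_fun (by omega) h8 h13] at h9
    exact h14 h9

/-- Instances of a small valid equation have the same types. -/
theorem ty_axiom (hM : 2 ≤ M) (hl : (RC l).length < M) (hl' : (RC l').length < M) (hB : LB (dF L) [l] [l'])
    (F : Set Ph) (fl : Prop) (H : Set Ph) :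
    Ty (dF A) (TB A M) (inst σ l) F fl H ↔ Ty (dF A) (TB A M) (inst σ l') F fl H := by
  rw [Ty_inst, Ty_inst]
  exact ⟨fun h => transfer hM hl (hB.lift _) h, fun h => transfer hM hl' (hB.symm.lift _) h⟩

end Transfer

end Pool.Agent.Helper501.Eps
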