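import Pool.Agent.Helper501.Eps.Lts

namespace Pool.Agent.Helper501.Eps

open Relation Term

/-- Phases. -/
inductive Ph
  | sf (i : ℕ)
  | he
  | hb

namespace Ph

/-- the terminated phases -/
def soft : Ph → Prop
  | sf _ => True
  | he => False
  | hb => False

/-- obligatory successors -/
def core (M : ℕ) : Ph → Set Ph
  | sf 0 => ∅
  | sf 1 => {he}
  | sf (j + 2) => {sf (j + 1)}
  | he => {sf 0}
  | hb => {sf M}

/-- the common successors -/
def RR : Set Ph := {sf 0, hb}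

/-- allowed successors -/
def SS (M : ℕ) : Ph → Set Ph
  | sf i => RR ∪ core M (sf i)
  | he => {sf 0}
  | hb => {sf M}

end Ph

open Ph

/-- `F` is the set of successors of a configuration of phase `k` -/
def Val (M : ℕ) (k : Ph) (F : Set Ph) (fl : Prop) : Prop :=
  (soft k ↔ fl) ∧ core M k ⊆ F ∧ F ⊆ SS M k ∧ ∀ i, k = sf i → i ≤ M

def cut (p : Prop) (F : Set Ph) : Set Ph := {x | p ∧ x ∈ F}

theorem cut_true {F : Set Ph} {p : Prop} (h : p) : cut p F = F := by
  ext x; simp [cut, h]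

theorem cut_false {F : Set Ph} {p : Prop} (h : ¬ p) : cut p F = ∅ := by
  ext x; simp [cut, h]

section Typing

variable {L : Type*}

/-- Typing of a term: `F` is the set of the phases of the successors of the continuation, `fl` says
whether the continuation is terminated, `H` is the set of the phases of the successors of the steps
of the term. -/
def Ty (da : L → Prop) (TA : L → Set Ph → Prop → Set Ph → Prop) : Term L → Set Ph → Prop → Set Ph → Prop
  | eps, _, _, H => H = ∅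
  | atom z, F, fl, H => TA z F fl H
  | plus s t, F, fl, H => ∃ H1 H2, Ty da TA s F fl H1 ∧ Ty da TA t F fl H2 ∧ H = H1 ∪ H2
  | seq s t, F, fl, H => ∃ Ht Hs, Ty da TA t F fl Ht ∧ Ty da TA s (Ht ∪ cut (dn da t) F) (dn da t ∧ fl) Hs ∧
      H = Hs ∪ cut (dn da s) Ht
  | kstar s t, F, fl, H => ∃ Ht Hs, Ty da TA t F fl Ht ∧
      Ty da TA s (Hs ∪ Ht ∪ cut (dn da t) F) (dn da t ∧ fl) Hs ∧ H = Hs ∪ Ht

/-- Typing of a stack; `G` is the set of the phases of all successors. -/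
def TyL (da : L → Prop) (TA : L → Set Ph → Prop → Set Ph → Prop) : List (Term L) → Set Ph → Prop → Set Ph → Prop
  | [], F, _, G => G = F
  | t :: R, F, fl, G => ∃ G' H, TyL da TA R F fl G' ∧ Ty da TA t G' (dnL da R ∧ fl) H ∧ G = H ∪ cut (dn da t) G'

variable {da : L → Prop} {TA : L → Set Ph → Prop → Set Ph → Prop}

theorem TyL_single {t : Term L} {F G : Set Ph} {fl : Prop} :
    TyL da TA [t] F fl G ↔ ∃ H, Ty da TA t F fl H ∧ G = H ∪ cut (dn da t) F := by
  have e : (dnL da ([] : List (Term L)) ∧ fl) = fl := by simp [dnL_nil]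
  simp only [TyL, e]
  constructor
  · rintro ⟨G', H, rfl, h1, h2⟩
    exact ⟨H, h1, h2⟩
  · rintro ⟨H, h1, h2⟩
    exact ⟨F, H, rfl, h1, h2⟩

theorem TyL_append {D1 D2 : List (Term L)} {F G : Set Ph} {fl : Prop} :
    TyL da TA (D1 ++ D2) F fl G ↔ ∃ G2, TyL da TA D2 F fl G2 ∧ TyL da TA D1 G2 (dnL da D2 ∧ fl) G := by
  induction D1 generalizing G with
  | nil => simp [TyL]
  | cons t R ih =>
    have e : (dnL da (R ++ D2) ∧ fl) = (dnL da R ∧ dnL da D2 ∧ fl) := by rw [dnL_append, and_assoc]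
    simp only [List.cons_append, TyL, ih, e]
    constructor
    · rintro ⟨G', H, ⟨G2, h1, h2⟩, h3, h4⟩
      exact ⟨G2, h1, G', H, h2, h3, h4⟩
    · rintro ⟨G2, h1, G', H, h2, h3, h4⟩
      exact ⟨G', H, ⟨G2, h1, h2⟩, h3, h4⟩

theorem TyL_sub {D : List (Term L)} {F G : Set Ph} {fl : Prop} (h : TyL da TA D F fl G) (hd : dnL da D) : F ⊆ G := by
  induction D generalizing G with
  | nil => rw [show G = F from h]
  | cons t R ih =>
    obtain ⟨G', H, h1, _, rfl⟩ := h
    rw [dnL_cons] at hd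
    refine (ih h1 hd.2).trans ?_
    intro x hx
    exact Or.inr ⟨hd.1, hx⟩

/-- every phase in the type is the phase of a successor -/
theorem SR1 {t : Term L} {F H : Set Ph} {fl : Prop} (h : Ty da TA t F fl H) {g : Ph} (hg : g ∈ H) :
    ∃ z w G' Hz, St da t z w ∧ TyL da TA w F fl G' ∧ TA z G' (dnL da w ∧ fl) Hz ∧ g ∈ Hz := by
  induction t generalizing F H fl with
  | eps =>
    rw [show H = ∅ from h] at hg
    exact absurd hg (by simp)
  | atom z =>
    refine ⟨z, [], F, H, ⟨rfl, rfl⟩, rfl, ?_, hg⟩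
    have e : (dnL da ([] : List (Term L)) ∧ fl) = fl := by simp [dnL_nil]
    rw [e]; exact h
  | plus s t ihs iht =>
    obtain ⟨H1, H2, h1, h2, rfl⟩ := h
    rcases hg with hg | hg
    · obtain ⟨z, w, G', Hz, h3, h4⟩ := ihs h1 hg
      exact ⟨z, w, G', Hz, Or.inl h3, h4⟩
    · obtain ⟨z, w, G', Hz, h3, h4⟩ := iht h2 hg
      exact ⟨z, w, G', Hz, Or.inr h3, h4⟩
  | seq s t ihs iht =>
    obtain ⟨Ht, Hs, h1, h2, rfl⟩ := h
    rcases hg with hg | ⟨h0, hg⟩
    · obtain ⟨z, w, G', Hz, h3, h4, h5, h6⟩ := ihs h2 hg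
      refine ⟨z, w ++ [t], G', Hz, Or.inl ⟨w, h3, rfl⟩, ?_, ?_, h6⟩
      · rw [TyL_append]
        refine ⟨_, TyL_single.2 ⟨Ht, h1, rfl⟩, ?_⟩
        rw [dnL_single]
        exact h4
      · rw [dnL_append, dnL_single, and_assoc]
        exact h5
    · obtain ⟨z, w, G', Hz, h3, h4⟩ := iht h1 hg
      exact ⟨z, w, G', Hz, Or.inr ⟨h0, h3⟩, h4⟩
  | kstar s t ihs iht =>
    obtain ⟨Ht, Hs, h1, h2, rfl⟩ := id h
    rcases hg with hg | hg
    · obtain ⟨z, w, G', Hz, h3, h4, h5, h6⟩ := ihs h2 hg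
      refine ⟨z, w ++ [kstar s t], G', Hz, Or.inl ⟨w, h3, rfl⟩, ?_, ?_, h6⟩
      · rw [TyL_append]
        refine ⟨_, TyL_single.2 ⟨_, h, rfl⟩, ?_⟩
        rw [dnL_single]
        exact h4
      · rw [dnL_append, dnL_single, and_assoc]
        exact h5
    · obtain ⟨z, w, G', Hz, h3, h4⟩ := iht h1 hg
      exact ⟨z, w, G', Hz, Or.inr h3, h4⟩

/-- every successor is typed and its phase is in the type -/
theorem SR2 {t : Term L} {F H : Set Ph} {fl : Prop} (h : Ty da TA t F fl H) {z : L} {w : List (Term L)}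
    (hs : St da t z w) : ∃ G' Hz, TyL da TA w F fl G' ∧ TA z G' (dnL da w ∧ fl) Hz ∧ Hz ⊆ H := by
  induction t generalizing F H fl w with
  | eps => exact absurd hs (by simp [St])
  | atom y =>
    obtain ⟨rfl, rfl⟩ := hs
    refine ⟨F, H, rfl, ?_, subset_rfl⟩
    have e : (dnL da ([] : List (Term L)) ∧ fl) = fl := by simp [dnL_nil]
    rw [e]; exact h
  | plus s t ihs iht =>
    obtain ⟨H1, H2, h1, h2, rfl⟩ := h
    rcases hs with hs | hs
    · obtain ⟨G', Hz, h3, h4, h5⟩ := ihs h1 hs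
      exact ⟨G', Hz, h3, h4, h5.trans Set.subset_union_left⟩
    · obtain ⟨G', Hz, h3, h4, h5⟩ := iht h2 hs
      exact ⟨G', Hz, h3, h4, h5.trans Set.subset_union_right⟩
  | seq s t ihs iht =>
    obtain ⟨Ht, Hs, h1, h2, rfl⟩ := h
    rcases hs with ⟨v, hs, rfl⟩ | ⟨h0, hs⟩
    · obtain ⟨G', Hz, h3, h4, h5⟩ := ihs h2 hs
      refine ⟨G', Hz, ?_, ?_, h5.trans Set.subset_union_left⟩
      · rw [TyL_append]
        refine ⟨_, TyL_single.2 ⟨Ht, h1, rfl⟩, ?_⟩
        rw [dnL_single]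
        exact h3
      · rw [dnL_append, dnL_single, and_assoc]
        exact h4
    · obtain ⟨G', Hz, h3, h4, h5⟩ := iht h1 hs
      exact ⟨G', Hz, h3, h4, fun x hx => Or.inr ⟨h0, h5 hx⟩⟩
  | kstar s t ihs iht =>
    obtain ⟨Ht, Hs, h1, h2, rfl⟩ := id h
    rcases hs with ⟨v, hs, rfl⟩ | hs
    · obtain ⟨G', Hz, h3, h4, h5⟩ := ihs h2 hs
      refine ⟨G', Hz, ?_, ?_, h5.trans Set.subset_union_left⟩
      · rw [TyL_append]
        refine ⟨_, TyL_single.2 ⟨_, h, rfl⟩, ?_⟩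
        rw [dnL_single]
        exact h3
      · rw [dnL_append, dnL_single, and_assoc]
        exact h4
    · obtain ⟨G', Hz, h3, h4, h5⟩ := iht h1 hs
      exact ⟨G', Hz, h3, h4, h5.trans Set.subset_union_right⟩

theorem SR1L {D : List (Term L)} {F G : Set Ph} {fl : Prop} (h : TyL da TA D F fl G) {g : Ph} (hg : g ∈ G) :
    (∃ z w G' Hz, Cf da D z w ∧ TyL da TA w F fl G' ∧ TA z G' (dnL da w ∧ fl) Hz ∧ g ∈ Hz) ∨
      (dnL da D ∧ g ∈ F) := by
  induction D generalizing G with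
  | nil => rw [show G = F from h] at hg; exact Or.inr ⟨dnL_nil, hg⟩
  | cons t R ih =>
    obtain ⟨G', H, h1, h2, rfl⟩ := h
    rcases hg with hg | ⟨h0, hg⟩
    · obtain ⟨z, w, G2, Hz, h3, h4, h5, h6⟩ := SR1 h2 hg
      refine Or.inl ⟨z, w ++ R, G2, Hz, Or.inl ⟨w, h3, rfl⟩, TyL_append.2 ⟨G', h1, h4⟩, ?_, h6⟩
      rw [dnL_append, and_assoc]
      exact h5
    · rcases ih h1 hg with ⟨z, w, G2, Hz, h3, h4⟩ | ⟨h3, h4⟩
      · exact Or.inl ⟨z, w, G2, Hz, Or.inr ⟨h0, h3⟩, h4⟩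
      · exact Or.inr ⟨dnL_cons.2 ⟨h0, h3⟩, h4⟩

theorem SR2L {D : List (Term L)} {F G : Set Ph} {fl : Prop} (h : TyL da TA D F fl G) {z : L} {w : List (Term L)}
    (hs : Cf da D z w) : ∃ G' Hz, TyL da TA w F fl G' ∧ TA z G' (dnL da w ∧ fl) Hz ∧ Hz ⊆ G := by
  induction D generalizing G with
  | nil => exact absurd hs cf_nil
  | cons t R ih =>
    obtain ⟨G', H, h1, h2, rfl⟩ := h
    rcases hs with ⟨v, hs, rfl⟩ | ⟨h0, hs⟩
    · obtain ⟨G2, Hz, h3, h4, h5⟩ := SR2 h2 hs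
      refine ⟨G2, Hz, TyL_append.2 ⟨G', h1, h3⟩, ?_, h5.trans Set.subset_union_left⟩
      rw [dnL_append, and_assoc]
      exact h4
    · obtain ⟨G2, Hz, h3, h4, h5⟩ := ih h1 hs
      exact ⟨G2, Hz, h3, h4, fun x hx => Or.inr ⟨h0, h5 hx⟩⟩

theorem TyL_lr {D D' : List (Term L)} {F G : Set Ph} {fl : Prop} (h : TyL da TA D F fl G) (hr : LR da D D') :
    ∃ G', TyL da TA D' F fl G' := by
  induction hr with
  | refl => exact ⟨G, h⟩
  | tail _ h1 ih =>
    obtain ⟨G', h2⟩ := ih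
    obtain ⟨z, h1⟩ := h1
    obtain ⟨G2, _, h3, _⟩ := SR2L h2 h1
    exact ⟨G2, h3⟩

theorem Ty_inst {M : Type*} {da : M → Prop} {TA : M → Set Ph → Prop → Set Ph → Prop} {σ : L → Term M} {t : Term L}
    {F H : Set Ph} {fl : Prop} :
    Ty da TA (inst σ t) F fl H ↔ Ty (fun z => dn da (σ z)) (fun z => Ty da TA (σ z)) t F fl H := by
  induction t generalizing F H fl with
  | eps => exact Iff.rfl
  | atom a => exact Iff.rfl
  | plus s t ihs iht => simp only [inst, Ty, ihs, iht]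
  | seq s t ihs iht => simp only [inst, Ty, ihs, iht, dn_inst]
  | kstar s t ihs iht => simp only [inst, Ty, ihs, iht, dn_inst]

theorem TyL_inst {M : Type*} {da : M → Prop} {TA : M → Set Ph → Prop → Set Ph → Prop} {σ : L → Term M}
    {D : List (Term L)} {F G : Set Ph} {fl : Prop} :
    TyL da TA (D.map (inst σ)) F fl G ↔ TyL (fun z => dn da (σ z)) (fun z => Ty da TA (σ z)) D F fl G := by
  induction D generalizing F G fl with
  | nil => exact Iff.rfl
  | cons t R ih => simp only [List.map_cons, TyL, ih, Ty_inst, dn_inst, dnL_inst]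

end Typing

end Pool.Agent.Helper501.Eps

namespace Pool.Agent.Helper501.Eps

open Relation Term Ph

section Phases

variable {M : ℕ}

theorem core_RR {i : ℕ} {y : Ph} (h : y ∈ core M (sf i)) : y ∉ RR := by
  rcases i with _ | _ | j
  · exact absurd h (by simp [core])
  · rw [show y = he from h]; simp [RR]
  · rw [show y = sf (j + 1) from h]; simp [RR]

theorem core_inj {i j : ℕ} {y : Ph} (h : y ∈ core M (sf i)) (h' : y ∈ core M (sf j)) : i = j := by
  rcases i with _ | _ | i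
  · exact absurd h (by simp [core])
  · rcases j with _ | _ | j
    · exact absurd h' (by simp [core])
    · rfl
    · rw [show y = he from h] at h'
      exact absurd h' (by simp [core])
  · rcases j with _ | _ | j
    · exact absurd h' (by simp [core])
    · rw [show y = sf (i + 1) from h] at h'
      exact absurd h' (by simp [core])
    · rw [show y = sf (i + 1) from h] at h'
      have : sf (i + 1) = sf (j + 1) := h'
      simp only [sf.injEq] at this
      omega

theorem SS_sf {i : ℕ} {y : Ph} (h : y ∈ SS M (sf i)) (hy : y ∉ RR) : y ∈ core M (sf i) := by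
  rcases h with h | h
  · exact absurd h hy
  · exact h

theorem sf_not_SS {j : ℕ} : sf (j + 1) ∉ SS M (sf (j + 1)) := by
  rintro (h | h)
  · exact absurd h (by simp [RR])
  · rcases j with _ | j
    · exact absurd h (by simp [core])
    · have : sf (j + 1 + 1) = sf (j + 1) := h
      simp at this

theorem Val_sf {i : ℕ} {F : Set Ph} {fl : Prop} (h : Val M (sf i) F fl) : F \ RR = core M (sf i) := by
  ext y
  constructor
  · rintro ⟨h1, h2⟩
    exact SS_sf (h.2.2.1 h1) h2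
  · intro h1
    exact ⟨h.2.1 h1, core_RR h1⟩

theorem Val.fl {k : Ph} {F : Set Ph} {fl : Prop} (h : Val M k F fl) : soft k ↔ fl := h.1

theorem sf_of_soft {k : Ph} (h : soft k) : ∃ i, k = sf i := by
  cases k with
  | sf i => exact ⟨i, rfl⟩
  | he => exact absurd h id
  | hb => exact absurd h id

theorem Val_fun (hM : 1 ≤ M) {k k' : Ph} {F F' : Set Ph} {fl : Prop} (h : Val M k F fl) (h' : Val M k' F' fl)
    (hF : F \ RR = F' \ RR) : k = k' := by
  have hs : soft k ↔ soft k' := h.1.trans h'.1.symm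
  cases k with
  | sf i =>
    obtain ⟨j, rfl⟩ := sf_of_soft (hs.1 trivial)
    have h1 := Val_sf h
    have h2 := Val_sf h'
    rw [hF, h2] at h1
    congr 1
    rcases i with _ | _ | i
    · rcases j with _ | _ | j
      · rfl
      · exact absurd h1 (by simp [core])
      · exact absurd h1 (by simp [core])
    · exact (core_inj (M := M) (y := he) rfl (by rw [h1]; rfl))
    · exact (core_inj (M := M) (y := sf (i + 1)) rfl (by rw [h1]; rfl))
  | he =>
    cases k' with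
    | sf i => exact absurd (hs.2 trivial) id
    | he => rfl
    | hb =>
      exfalso
      have h1 : sf M ∈ F' \ RR := ⟨h'.2.1 rfl, by simp only [RR, Set.mem_insert_iff, Set.mem_singleton_iff, sf.injEq, reduceCtorEq, or_false]; omega⟩
      rw [← hF] at h1
      have h2 : sf M = sf 0 := h.2.2.1 h1.1
      simp only [sf.injEq] at h2
      omega
  | hb =>
    cases k' with
    | sf i => exact absurd (hs.2 trivial) id
    | hb => rfl
    | he =>
      exfalso
      have h1 : sf M ∈ F \ RR := ⟨h.2.1 rfl, by simp only [RR, Set.mem_insert_iff, Set.mem_singleton_iff, sf.injEq, reduceCtorEq, or_false]; omega⟩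
      rw [hF] at h1
      have h2 : sf M = sf 0 := h'.2.2.1 h1.1
      simp only [sf.injEq] at h2
      omega

end Phases

section Base

variable {A : Type*} {M : ℕ}

/-- no atom is terminated -/
def dF (A : Type*) : A → Prop := fun _ => False

/-- typing of actions -/
def TB (A : Type*) (M : ℕ) : A → Set Ph → Prop → Set Ph → Prop := fun _ F fl H => ∃ k, Val M k F fl ∧ H = {k}

theorem ST {s : Term A} {G H : Set Ph} {fl : Prop} (h : Ty (dF A) (TB A M) s G fl H) (hHG : H ⊆ G) : H ⊆ RR := by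
  intro g hg
  obtain ⟨z, w, G', Hz, _, h2, ⟨k, h3, rfl⟩, h4⟩ := SR1 h hg
  obtain rfl : g = k := h4
  cases g with
  | sf j =>
    rcases j with _ | j
    · simp [RR]
    · exfalso
      have h5 := h3.1.1 trivial
      exact sf_not_SS (h3.2.2.1 (TyL_sub h2 h5.1 (hHG hg)))
  | hb => simp [RR]
  | he =>
    exfalso
    have h5 : sf 0 ∈ G' := h3.2.1 rfl
    rcases SR1L h2 h5 with ⟨z2, w2, G2, _, _, h6, ⟨k, h7, rfl⟩, h8⟩ | ⟨h6, _⟩
    · obtain rfl : sf 0 = k := h8
      have h9 := h7.1.1 trivial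
      have h10 : he ∈ SS M (sf 0) := h7.2.2.1 (TyL_sub h6 h9.1 (hHG hg))
      simp [SS, RR, core] at h10
    · have h10 : he ∈ SS M he := h3.2.2.1 (TyL_sub h2 h6 (hHG hg))
      simp [SS] at h10

theorem cut_diff {p : Prop} {F X : Set Ph} : cut p F \ X = cut p (F \ X) := by
  ext x; simp only [cut, Set.mem_diff, Set.mem_setOf_eq]; tauto

theorem V (hM : 1 ≤ M) {t : Term A} {F F' H H' : Set Ph} {fl : Prop} (h : Ty (dF A) (TB A M) t F fl H)
    (h' : Ty (dF A) (TB A M) t F' fl H') (hF : F \ RR = F' \ RR) : H = H' := by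
  induction t generalizing F F' H H' fl with
  | eps => rw [show H = ∅ from h, show H' = ∅ from h']
  | atom z =>
    obtain ⟨k, h1, rfl⟩ := h
    obtain ⟨k', h1', rfl⟩ := h'
    rw [Val_fun hM h1 h1' hF]
  | plus s t ihs iht =>
    obtain ⟨H1, H2, h1, h2, rfl⟩ := h
    obtain ⟨H1', H2', h1', h2', rfl⟩ := h'
    rw [ihs h1 h1' hF, iht h2 h2' hF]
  | seq s t ihs iht =>
    obtain ⟨Ht, Hs, h1, h2, rfl⟩ := h
    obtain ⟨Ht', Hs', h1', h2', rfl⟩ := h'
    obtain rfl := iht h1 h1' hF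
    rw [ihs h2 h2' (by rw [Set.union_diff_distrib, Set.union_diff_distrib, cut_diff, cut_diff, hF])]
  | kstar s t ihs iht =>
    obtain ⟨Ht, Hs, h1, h2, rfl⟩ := h
    obtain ⟨Ht', Hs', h1', h2', rfl⟩ := h'
    obtain rfl := iht h1 h1' hF
    have h3 : Hs ⊆ RR := ST h2 (Set.subset_union_left.trans Set.subset_union_left)
    have h3' : Hs' ⊆ RR := ST h2' (Set.subset_union_left.trans Set.subset_union_left)
    rw [ihs h2 h2' (by
      simp only [Set.union_diff_distrib]
      rw [cut_diff, cut_diff, hF, Set.diff_eq_empty.2 h3, Set.diff_eq_empty.2 h3'])]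

theorem TyL_V (hM : 1 ≤ M) {D : List (Term A)} {F F' G G' : Set Ph} {fl : Prop} (h : TyL (dF A) (TB A M) D F fl G)
    (h' : TyL (dF A) (TB A M) D F' fl G') (hF : F \ RR = F' \ RR) : G \ RR = G' \ RR := by
  induction D generalizing G G' with
  | nil => rw [show G = F from h, show G' = F' from h', hF]
  | cons t R ih =>
    obtain ⟨G1, H, h1, h2, rfl⟩ := h
    obtain ⟨G1', H', h1', h2', rfl⟩ := h'
    have h3 := ih h1 h1'
    rw [V hM h2 h2' h3, Set.union_diff_distrib, Set.union_diff_distrib, cut_diff, cut_diff, h3]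

theorem TyL_fun (hM : 1 ≤ M) {D : List (Term A)} {F G G' : Set Ph} {fl : Prop} (h : TyL (dF A) (TB A M) D F fl G)
    (h' : TyL (dF A) (TB A M) D F fl G') : G = G' := by
  induction D generalizing G G' with
  | nil => rw [show G = F from h, show G' = F from h']
  | cons t R ih =>
    obtain ⟨G1, H, h1, h2, rfl⟩ := h
    obtain ⟨G1', H', h1', h2', rfl⟩ := h'
    obtain rfl := ih h1 h1'
    rw [V hM h2 h2' rfl]

/-- two soft configurations with the same stack and different phases: the stack has no steps -/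
theorem IA (hM : 2 ≤ M) {r : List (Term A)} {G1 G2 K1 K2 : Set Ph} {f f' : Prop} {j : ℕ}
    (h1 : TyL (dF A) (TB A M) r G1 f K1) (h2 : TyL (dF A) (TB A M) r G2 f K2) (hd : dnL (dF A) r)
    (v1 : Val M (sf 0) K1 f') (v2 : Val M (sf (j + 1)) K2 f') (a : A) (r' : List (Term A)) : ¬ Cf (dF A) r a r' := by
  intro hc
  have hK1 : K1 ⊆ RR := by
    have := v1.2.2.1
    simpa [SS, core] using this
  have hG1 : G1 ⊆ RR := (TyL_sub h1 hd).trans hK1
  by_cases hG2 : G2 ⊆ RR
  · have h3 := TyL_V (by omega) h1 h2 (by rw [Set.diff_eq_empty.2 hG1, Set.diff_eq_empty.2 hG2])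
    have := Val_fun (by omega) v1 v2 h3
    simp at this
  obtain ⟨y, hy1, hy2⟩ := Set.not_subset.1 hG2
  have hyc : y ∈ core M (sf (j + 1)) := SS_sf (v2.2.2.1 (TyL_sub h2 hd hy1)) hy2
  have uniq : ∀ {x : ℕ} {r' : List (Term A)} {K : Set Ph} {f'' : Prop}, TyL (dF A) (TB A M) r' G2 f K → dnL (dF A) r' →
      Val M (sf x) K f'' → x = j + 1 := by
    intro x r' K f'' h3 h4 h5
    exact core_inj (SS_sf (h5.2.2.1 (TyL_sub h3 h4 hy1)) hy2) hyc
  obtain ⟨G1', _, h3, ⟨q1, v3, rfl⟩, h4⟩ := SR2L h1 hc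
  obtain ⟨G2', _, h5, ⟨q2, v4, rfl⟩, h6⟩ := SR2L h2 hc
  have h4 : q1 ∈ K1 := h4 rfl
  have h6 : q2 ∈ K2 := h6 rfl
  by_cases hs : soft q2
  · obtain ⟨x, rfl⟩ := sf_of_soft hs
    obtain rfl := uniq h5 (v4.1.1 hs).1 v4
    exact sf_not_SS (v2.2.2.1 h6)
  have hs1 : ¬ soft q1 := by
    rw [v3.1, ← v4.1]; exact hs
  obtain rfl : q1 = hb := by
    rcases hK1 h4 with h | h
    · rw [h] at hs1; exact absurd trivial hs1
    · exact h
  have h7 : sf M ∈ G1' := v3.2.1 rfl
  rcases SR1L h3 h7 with ⟨z, r2, K3, _, c3, h8, ⟨k, v5, rfl⟩, h9⟩ | ⟨_, h⟩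
  swap
  · have := hG1 h
    simp [RR] at this
    omega
  obtain rfl : sf M = k := h9
  have hd2 := (v5.1.1 trivial).1
  obtain ⟨K4, _, h10, ⟨q3, v6, rfl⟩, h11⟩ := SR2L h5 c3
  have h11 : q3 ∈ G2' := h11 rfl
  obtain ⟨x, rfl⟩ := sf_of_soft (v6.1.2 (v5.1.1 trivial))
  obtain rfl := uniq h10 hd2 v6
  -- now the phase `sf (M - 1)`
  obtain ⟨m, rfl⟩ : ∃ m, M = m + 2 := ⟨M - 2, by omega⟩
  have h12 : sf (m + 1) ∈ K3 := v5.2.1 rfl
  rcases SR1L h8 h12 with ⟨z2, r3, K5, _, c4, h13, ⟨k, v7, rfl⟩, h14⟩ | ⟨_, h⟩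
  swap
  · have := hG1 h
    simp [RR] at this
  obtain rfl : sf (m + 1) = k := h14
  obtain ⟨K6, _, h15, ⟨q4, v8, rfl⟩, h16⟩ := SR2L h10 c4
  have h16 : q4 ∈ K4 := h16 rfl
  obtain ⟨x, rfl⟩ := sf_of_soft (v8.1.2 (v7.1.1 trivial))
  obtain rfl := uniq h15 (v7.1.1 trivial).1 v8
  exact sf_not_SS (v6.2.2.1 h16)

theorem TyL_inactive {r : List (Term A)} {G K : Set Ph} {f : Prop} (h : TyL (dF A) (TB A M) r G f K)
    (hd : dnL (dF A) r) (hr : ∀ a r', ¬ Cf (dF A) r a r') : K = G := by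
  refine Set.Subset.antisymm ?_ (TyL_sub h hd)
  intro g hg
  rcases SR1L h hg with ⟨z, w, _, _, hc, _⟩ | ⟨_, h⟩
  · exact absurd hc (hr z w)
  · exact h

end Base

end Pool.Agent.Helper501.Eps
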